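import Mathlib

namespace Pool.Agent.Binning

open Finset

/-- `p` is a probability distribution on `[n]`. -/
def IsDist {n : ℕ} (p : Fin n → ℝ) : Prop := (∀ i, 0 ≤ p i) ∧ ∑ i, p i = 1

/-- The push-forward `f_* p`, i.e. `f_* p (j) = p(f⁻¹(j))`. -/
def push {n m : ℕ} (f : Fin n → Fin m) (p : Fin n → ℝ) (j : Fin m) : ℝ :=
  ∑ i with f i = j, p i

/-- Total variation distance. -/
noncomputable def tv {m : ℕ} (p q : Fin m → ℝ) : ℝ := (∑ j, |p j - q j|) / 2

/-- `f ∈ 𝓕_{n,m}`: nondecreasing surjections `[n] → [m]`. -/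
def IsCoarsening {n m : ℕ} (f : Fin n → Fin m) : Prop := Monotone f ∧ Function.Surjective f

/-- The probability that a (randomised) test accepts, when it is given `s` i.i.d. samples
from `p` and accepts the sample vector `ω` with probability `T ω`. -/
def acceptProb {n s : ℕ} (p : Fin n → ℝ) (T : (Fin s → Fin n) → ℝ) : ℝ :=
  ∑ ω : Fin s → Fin n, (∏ k, p (ω k)) * T ω

/-- For every reference distribution `q` on `[m]` there is a (randomised) tester with `s` samples
that accepts with probability `≥ 2/3` if `f_* p = q` for some `f ∈ 𝓕_{n,m}` and rejects with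
probability `≥ 2/3` if `d_TV(f_* p, q) > ε` for all `f ∈ 𝓕_{n,m}`. -/
def Testable (n m : ℕ) (ε : ℝ) (s : ℕ) : Prop :=
  ∀ q : Fin m → ℝ, IsDist q → ∃ T : (Fin s → Fin n) → ℝ,
    (∀ ω, 0 ≤ T ω ∧ T ω ≤ 1) ∧
    (∀ p : Fin n → ℝ, IsDist p →
      (∃ f : Fin n → Fin m, IsCoarsening f ∧ push f p = q) → 2 / 3 ≤ acceptProb p T) ∧
    (∀ p : Fin n → ℝ, IsDist p →
      (∀ f : Fin n → Fin m, IsCoarsening f → ε < tv (push f p) q) → acceptProb p T ≤ 1 / 3)

end Pool.Agent.Binning
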