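import Mathlib

namespace Pool.Agent.Binning

open Finset

/-- Binomial weights on the odd (`p = 1`) or even (`p = 0`) numbers in `{0, …, 2L}`. -/
noncomputable def wt (L p : ℕ) (r : Fin (2 * L + 1)) : ℝ :=
  if (r : ℕ) % 2 = p then (Nat.choose (2 * L) r : ℝ) / 2 ^ (2 * L - 1) else 0

lemma wt_nonneg (L p : ℕ) (r : Fin (2 * L + 1)) : 0 ≤ wt L p r := by
  unfold wt
  split_ifs <;> positivity

lemma alt_sum (L k : ℕ) (hk : k < 2 * L) :
    ∑ j ∈ range (2 * L + 1), (-1 : ℝ) ^ j * (Nat.choose (2 * L) j : ℝ) * ((j : ℝ) - L) ^ k = 0 := by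
  have h := congr_fun (fwdDiff_iter_pow_eq_zero_of_lt (R := ℝ) hk) (-(L : ℝ))
  rw [fwdDiff_iter_eq_sum_shift] at h
  rw [← h.trans (Pi.zero_apply _)]
  apply Finset.sum_congr rfl
  intro j hj
  have hj' : j ≤ 2 * L := Nat.lt_succ_iff.mp (Finset.mem_range.mp hj)
  have e : (-1 : ℝ) ^ (2 * L - j) = (-1) ^ j := by
    rcases Nat.even_or_odd j with he | ho
    · have : Even (2 * L - j) := Nat.even_iff.mpr (by have := Nat.even_iff.mp he; lia)
      rw [he.neg_one_pow, this.neg_one_pow]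
    · have : Odd (2 * L - j) := Nat.odd_iff.mpr (by have := Nat.odd_iff.mp ho; lia)
      rw [ho.neg_one_pow, this.neg_one_pow]
  rw [zsmul_eq_mul]
  push_cast
  rw [e, nsmul_eq_mul]
  ring

lemma wt_add (L : ℕ) (r : Fin (2 * L + 1)) :
    wt L 1 r + wt L 0 r = (Nat.choose (2 * L) r : ℝ) / 2 ^ (2 * L - 1) := by
  unfold wt
  rcases Nat.mod_two_eq_zero_or_one (r : ℕ) with h | h <;> simp [h]

lemma wt_sub (L : ℕ) (r : Fin (2 * L + 1)) :
    wt L 1 r - wt L 0 r =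
      - ((-1 : ℝ) ^ (r : ℕ) * (Nat.choose (2 * L) r : ℝ) / 2 ^ (2 * L - 1)) := by
  unfold wt
  rcases Nat.mod_two_eq_zero_or_one (r : ℕ) with h | h
  · have : Even (r : ℕ) := Nat.even_iff.mpr h
    simp [h, this.neg_one_pow]
  · have : Odd (r : ℕ) := Nat.odd_iff.mpr h
    simp only [h, this.neg_one_pow, if_true, Nat.one_ne_zero, if_false]
    ring

lemma wt_moment (L k : ℕ) (hk : k < 2 * L) :
    ∑ r : Fin (2 * L + 1), (wt L 1 r - wt L 0 r) * ((r : ℝ) - L) ^ k = 0 := by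
  have h := alt_sum L k hk
  rw [Finset.sum_range] at h
  have e : ∑ r : Fin (2 * L + 1), (wt L 1 r - wt L 0 r) * ((r : ℝ) - L) ^ k =
      - (∑ j : Fin (2 * L + 1), (-1 : ℝ) ^ (j : ℕ) * (Nat.choose (2 * L) j : ℝ) *
        ((j : ℝ) - L) ^ k) / 2 ^ (2 * L - 1) := by
    rw [neg_div, Finset.sum_div, ← Finset.sum_neg_distrib]
    apply Finset.sum_congr rfl
    intro r _
    rw [wt_sub]
    ring
  rw [e, h]
  simp

lemma wt_sum (L : ℕ) (hL : 1 ≤ L) :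
    ∑ r : Fin (2 * L + 1), wt L 1 r = 1 ∧ ∑ r : Fin (2 * L + 1), wt L 0 r = 1 := by
  have h1 : ∑ r : Fin (2 * L + 1), wt L 1 r - ∑ r : Fin (2 * L + 1), wt L 0 r = 0 := by
    have := wt_moment L 0 (by lia)
    simpa [Finset.sum_sub_distrib] using this
  have h2 : ∑ r : Fin (2 * L + 1), wt L 1 r + ∑ r : Fin (2 * L + 1), wt L 0 r = 2 := by
    rw [← Finset.sum_add_distrib]
    simp_rw [wt_add]
    rw [← Finset.sum_div]
    have e : ∑ r : Fin (2 * L + 1), (Nat.choose (2 * L) r : ℝ) = 2 ^ (2 * L) := by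
      have := Nat.sum_range_choose (2 * L)
      rw [Finset.sum_range] at this
      exact_mod_cast this
    rw [e]
    obtain ⟨l, rfl⟩ : ∃ l, L = l + 1 := ⟨L - 1, by lia⟩
    have e2 : 2 * (l + 1) - 1 = 2 * l + 1 := by lia
    have e3 : 2 * (l + 1) = (2 * l + 1) + 1 := by lia
    rw [e2, e3, pow_succ (2 : ℝ) (2 * l + 1)]
    field_simp
  constructor <;> linarith

lemma wt_rev (L p : ℕ) (r : Fin (2 * L + 1)) : wt L p (Fin.rev r) = wt L p r := by
  unfold wt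
  have hr : (r : ℕ) ≤ 2 * L := Nat.lt_succ_iff.mp r.isLt
  have e : ((Fin.rev r : Fin (2 * L + 1)) : ℕ) = 2 * L - r := by
    rw [Fin.val_rev]
    lia
  rw [e, Nat.choose_symm hr]
  have e2 : (2 * L - (r : ℕ)) % 2 = (r : ℕ) % 2 := by lia
  rw [e2]

lemma xr_rev (L : ℕ) (r : Fin (2 * L + 1)) :
    (((Fin.rev r : Fin (2 * L + 1)) : ℕ) : ℝ) - L = - (((r : ℕ) : ℝ) - L) := by
  have hr : (r : ℕ) ≤ 2 * L := Nat.lt_succ_iff.mp r.isLt
  have e : ((Fin.rev r : Fin (2 * L + 1)) : ℕ) = 2 * L - r := by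
    rw [Fin.val_rev]
    lia
  rw [e, Nat.cast_sub hr]
  push_cast
  ring

end Pool.Agent.Binning
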