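import Pool.Agent.Binning.Mixture

set_option linter.unusedSectionVars false

namespace Pool.Agent.Binning

open Finset

variable {R τ : Type*} [Fintype R] [Fintype τ] [DecidableEq τ] {B s : ℕ}

lemma lift_pos (g : R → τ → ℝ) (hg0 : ∀ r t, 0 < g r t) (r : R) (z : Option τ) :
    0 < lift g r z := by
  cases z with
  | none => simp [lift]
  | some t => exact hg0 r t

lemma Lam_pos (g : R → τ → ℝ) (hg0 : ∀ r t, 0 < g r t) (π : R → ℝ) (hπ0 : ∀ r, 0 ≤ π r)
    (hπ : ∑ r, π r = 1) (y : Fin s → Option τ) : 0 < Lam g π y := by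
  classical
  have hex : ∃ r ∈ (univ : Finset R), 0 < π r := by
    by_contra hcon
    push Not at hcon
    have : ∑ r, π r ≤ 0 := Finset.sum_nonpos hcon
    linarith
  obtain ⟨r, _, hr⟩ := hex
  apply Finset.sum_pos'
  · intro r _
    exact mul_nonneg (hπ0 r) (Finset.prod_nonneg fun k _ => (lift_pos g hg0 r (y k)).le)
  · exact ⟨r, Finset.mem_univ r, mul_pos hr (Finset.prod_pos fun k _ => lift_pos g hg0 r (y k))⟩

/-- The correction factor: `1` outside the block, `β` inside. -/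
def corr (β : ℝ) : Option τ → ℝ
  | none => 1
  | some _ => β

/-- Lower bound for the likelihood ratio of a symmetric mixture. -/
lemma Lam_ge (x : R → ℝ) (h : τ → ℝ) (z : ℝ) (hz0 : 0 ≤ z) (hz1 : z < 1)
    (hxh : ∀ r t, (x r * h t) ^ 2 ≤ z)
    (rev : R ≃ R) (π : R → ℝ) (hπ0 : ∀ r, 0 ≤ π r) (hπ : ∑ r, π r = 1)
    (hrevπ : ∀ r, π (rev r) = π r) (hrevx : ∀ r, x (rev r) = - x r)
    (y : Fin s → Option τ) :
    ∏ k, corr (1 - z) (y k) ≤ Lam (fun r t => 1 + x r * h t) π y := by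
  classical
  set g : R → τ → ℝ := fun r t => 1 + x r * h t with hgdef
  have hxh' : ∀ r t, |x r * h t| < 1 := by
    intro r t
    rw [← sq_lt_one_iff_abs_lt_one]
    exact (hxh r t).trans_lt hz1
  have hg0 : ∀ r t, 0 < g r t := by
    intro r t
    have := (abs_lt.mp (hxh' r t)).1
    simp only [hgdef]
    linarith
  have hc : 0 ≤ ∏ k, corr (1 - z) (y k) := by
    apply Finset.prod_nonneg
    intro k _
    cases y k with
    | none => simp [corr]
    | some t => simp [corr]; linarith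
  have key : ∀ r, 2 * ∏ k, corr (1 - z) (y k) ≤
      ∏ k, lift g r (y k) + ∏ k, lift g (rev r) (y k) := by
    intro r
    have ha : 0 < ∏ k, lift g r (y k) := Finset.prod_pos fun k _ => lift_pos g hg0 r (y k)
    have hb : 0 < ∏ k, lift g (rev r) (y k) :=
      Finset.prod_pos fun k _ => lift_pos g hg0 (rev r) (y k)
    have hab : (∏ k, corr (1 - z) (y k)) ^ 2 ≤
        (∏ k, lift g r (y k)) * ∏ k, lift g (rev r) (y k) := by
      rw [← Finset.prod_mul_distrib, ← Finset.prod_pow]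
      apply Finset.prod_le_prod
      · intro k _
        positivity
      · intro k _
        cases y k with
        | none => simp [corr, lift]
        | some t =>
          simp only [corr, lift, hgdef, hrevx]
          have := hxh r t
          nlinarith
    by_contra hcon
    push Not at hcon
    nlinarith [sq_nonneg ((∏ k, lift g r (y k)) - ∏ k, lift g (rev r) (y k))]
  have e1 : Lam g π y = ∑ r, π r * ∏ k, lift g (rev r) (y k) := by
    unfold Lam
    rw [← Equiv.sum_comp rev]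
    apply Finset.sum_congr rfl
    intro r _
    rw [hrevπ]
  have e2 : 2 * Lam g π y =
      ∑ r, π r * (∏ k, lift g r (y k) + ∏ k, lift g (rev r) (y k)) := by
    have : 2 * Lam g π y = Lam g π y + Lam g π y := by ring
    rw [this]
    nth_rewrite 2 [e1]
    unfold Lam
    rw [← Finset.sum_add_distrib]
    apply Finset.sum_congr rfl
    intro r _
    ring
  have e3 : 2 * ∏ k, corr (1 - z) (y k) =
      ∑ r, π r * (2 * ∏ k, corr (1 - z) (y k)) := by
    rw [← Finset.sum_mul, hπ, one_mul]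
  have : 2 * ∏ k, corr (1 - z) (y k) ≤ 2 * Lam g π y := by
    rw [e2, e3]
    exact Finset.sum_le_sum fun r _ => mul_le_mul_of_nonneg_left (key r) (hπ0 r)
  linarith

/-- The two-prior lower bound: a test separating the two mixtures forces the chi-square bound
to be at least `1 / 9`. -/
theorem two_prior (ρ h : τ → ℝ) (x π₀ π₁ : R → ℝ) (rev : R ≃ R) (z σ X lam : ℝ) (K : ℕ)
    (hB : 0 < B) (hρ : ∀ t, 0 < ρ t) (hρ1 : ∑ t, ρ t = 1) (hρh : ∑ t, ρ t * h t = 0)
    (hσ : ∑ t, ρ t * h t ^ 2 = σ) (hz0 : 0 ≤ z) (hz1 : z < 1)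
    (hxh : ∀ r t, (x r * h t) ^ 2 ≤ z) (hX : 0 ≤ X) (hx : ∀ r, |x r| ≤ X)
    (hlam : 1 ≤ lam)
    (h0 : ∀ r, 0 ≤ π₀ r) (h1 : ∀ r, 0 ≤ π₁ r) (hs0 : ∑ r, π₀ r = 1) (hs1 : ∑ r, π₁ r = 1)
    (hrevπ : ∀ r, π₁ (rev r) = π₁ r) (hrevx : ∀ r, x (rev r) = - x r)
    (hmom : ∀ k < K, ∑ r, (π₀ r - π₁ r) * x r ^ k = 0)
    (T : (Fin s → Fin B × τ) → ℝ) (hT0 : ∀ ω, 0 ≤ T ω) (hT1 : ∀ ω, T ω ≤ 1)
    (hT : 1 / 3 ≤ ∑ ω, (mix ρ (fun r t => 1 + x r * h t) π₀ ω -
      mix ρ (fun r t => 1 + x r * h t) π₁ ω) * T ω) :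
    1 / 9 ≤ B * (4 * (lam ^ K)⁻¹ * (((B : ℝ) - 1) / B + (1 - z)⁻¹ / B +
      lam * ((1 - z)⁻¹ * σ / B * X ^ 2)) ^ s) := by
  classical
  set g : R → τ → ℝ := fun r t => 1 + x r * h t with hgdef
  have hB' : (0 : ℝ) < B := by positivity
  have hxh' : ∀ r t, |x r * h t| < 1 := by
    intro r t
    rw [← sq_lt_one_iff_abs_lt_one]
    exact (hxh r t).trans_lt hz1
  have hg0 : ∀ r t, 0 < g r t := by
    intro r t
    have := (abs_lt.mp (hxh' r t)).1
    simp only [hgdef]
    linarith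
  have hg : ∀ r, ∑ t, ρ t * g r t = 1 := by
    intro r
    have : ∑ t, ρ t * g r t = ∑ t, ρ t + x r * ∑ t, ρ t * h t := by
      rw [Finset.mul_sum, ← Finset.sum_add_distrib]
      apply Finset.sum_congr rfl
      intro t _
      simp only [hgdef]
      ring
    rw [this, hρ1, hρh]
    ring
  have hΛ₀ : ∀ y : Fin s → Option τ, 0 < Lam g π₀ y := Lam_pos g hg0 π₀ h0 hs0
  have hΛ₁ : ∀ y : Fin s → Option τ, 0 < Lam g π₁ y := Lam_pos g hg0 π₁ h1 hs1
  have hmixpos : ∀ π : R → ℝ, (∀ y : Fin s → Option τ, 0 < Lam g π y) →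
      ∀ ω : Fin s → Fin B × τ, 0 < mix ρ g π ω := by
    intro π hπ ω
    rw [mix_eq]
    exact mul_pos (Finset.prod_pos fun k _ => div_pos (hρ _) hB')
      (Finset.prod_pos fun l _ => hπ _)
  have hkl := sq_sum_le_kl (mix ρ g π₀) (mix ρ g π₁) (hmixpos π₀ hΛ₀) (hmixpos π₁ hΛ₁)
    (sum_mix ρ g hg π₀ hs0 hB) (sum_mix ρ g hg π₁ hs1 hB) T hT0 hT1 (by linarith)
  have hkl2 := kl_mix_le (s := s) ρ g hρ hg π₀ π₁ hs0 hs1 hΛ₀ hΛ₁ hB
  have hβ : 0 < 1 - z := by linarith
  -- the chi-square bound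
  have hchi : ∑ y : Fin s → Option τ, (∏ k, nu B ρ (y k)) *
        ((Lam g π₀ y - Lam g π₁ y) ^ 2 / Lam g π₁ y) ≤
      ∑ y : Fin s → Option τ, (∏ k, (nu B ρ (y k) * (corr (1 - z) (y k))⁻¹)) *
        (∑ r, (π₀ r - π₁ r) * ∏ k, lift g r (y k)) ^ 2 := by
    apply Finset.sum_le_sum
    intro y _
    have hν : 0 ≤ ∏ k, nu B ρ (y k) := by
      apply Finset.prod_nonneg
      intro k _
      cases y k with
      | none =>
        simp only [nu]
        apply div_nonneg _ hB'.le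
        have : (1 : ℝ) ≤ B := by exact_mod_cast hB
        linarith
      | some t => exact (div_pos (hρ t) hB').le
    have hcp : 0 < ∏ k, corr (1 - z) (y k) := by
      apply Finset.prod_pos
      intro k _
      cases y k with
      | none => simp [corr]
      | some t => simpa [corr] using hβ
    have hge := Lam_ge x h z hz0 hz1 hxh rev π₁ h1 hs1 hrevπ hrevx y
    have e : Lam g π₀ y - Lam g π₁ y = ∑ r, (π₀ r - π₁ r) * ∏ k, lift g r (y k) := by
      unfold Lam
      rw [← Finset.sum_sub_distrib]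
      apply Finset.sum_congr rfl
      intro r _
      ring
    rw [← e, Finset.prod_mul_distrib, Finset.prod_inv_distrib, mul_assoc]
    apply mul_le_mul_of_nonneg_left _ hν
    rw [div_eq_inv_mul]
    apply mul_le_mul_of_nonneg_right _ (sq_nonneg _)
    exact inv_anti₀ hcp hge
  rw [sum_sq_eq (s := s) (fun z' => nu B ρ z' * (corr (1 - z) z')⁻¹) g
    (fun r => π₀ r - π₁ r)] at hchi
  have hinner : ∀ r r', ∑ z', nu B ρ z' * (corr (1 - z) z')⁻¹ * (lift g r z' * lift g r' z') =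
      (((B : ℝ) - 1) / B + (1 - z)⁻¹ / B) + ((1 - z)⁻¹ * σ / B) * (x r * x r') := by
    intro r r'
    rw [Fintype.sum_option]
    have e1 : ∑ t, nu B ρ (some t) * (corr (1 - z) (some t))⁻¹ *
        (lift g r (some t) * lift g r' (some t)) =
        (1 - z)⁻¹ / B * (∑ t, ρ t + (x r + x r') * ∑ t, ρ t * h t +
          (x r * x r') * ∑ t, ρ t * h t ^ 2) := by
      rw [Finset.mul_sum, Finset.mul_sum, ← Finset.sum_add_distrib, ← Finset.sum_add_distrib,
        Finset.mul_sum]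
      apply Finset.sum_congr rfl
      intro t _
      simp only [nu, corr, lift, hgdef]
      ring
    rw [e1, hρ1, hρh, hσ]
    simp only [nu, corr, lift]
    ring
  simp_rw [hinner] at hchi
  have hd : ∑ r, |π₀ r - π₁ r| ≤ 2 := by
    calc ∑ r, |π₀ r - π₁ r| ≤ ∑ r, (π₀ r + π₁ r) := by
          apply Finset.sum_le_sum
          intro r _
          rw [abs_le]
          constructor <;> linarith [h0 r, h1 r]
      _ = 2 := by rw [Finset.sum_add_distrib, hs0, hs1]; norm_num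
  have hσ0 : 0 ≤ σ := by
    rw [← hσ]
    exact Finset.sum_nonneg fun t _ => mul_nonneg (hρ t).le (sq_nonneg _)
  have hq := quad_le (s := s) x (fun r => π₀ r - π₁ r)
    (((B : ℝ) - 1) / B + (1 - z)⁻¹ / B) ((1 - z)⁻¹ * σ / B) X lam K
    (by
      have : (1 : ℝ) ≤ B := by exact_mod_cast hB
      have h3 : 0 ≤ ((B : ℝ) - 1) / B := div_nonneg (by linarith) hB'.le
      positivity) (by positivity) hX hlam hx hd hmom
  have hfin := (hkl.trans hkl2).trans (mul_le_mul_of_nonneg_left (hchi.trans hq) hB'.le)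
  have h13 : (1 / 3 : ℝ) ^ 2 ≤ (∑ ω, (mix ρ g π₀ ω - mix ρ g π₁ ω) * T ω) ^ 2 :=
    pow_le_pow_left₀ (by norm_num) hT 2
  calc (1 / 9 : ℝ) = (1 / 3) ^ 2 := by norm_num
    _ ≤ _ := h13.trans hfin

end Pool.Agent.Binning
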