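import Pool.Agent.Binning.Dist
import Pool.Agent.Binning.TwoPrior
import Pool.Agent.Binning.Moments

namespace Pool.Agent.Binning

open Finset

/-- The position of an atom. -/
def emb {n L B : ℕ} (hn : (L + 1) * B ≤ n) (z : Fin B × Fin (L + 1)) : Fin n :=
  ⟨(L + 1) * z.1 + z.2, by
    have h1 : (L + 1) * ((z.1 : ℕ) + 1) ≤ (L + 1) * B := Nat.mul_le_mul_left _ z.1.isLt
    have h2 : (L + 1) * ((z.1 : ℕ) + 1) = (L + 1) * (z.1 : ℕ) + (L + 1) := by ring
    have h3 := z.2.isLt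
    lia⟩

lemma emb_injective {n L B : ℕ} (hn : (L + 1) * B ≤ n) : Function.Injective (emb hn) := by
  rintro ⟨i, t⟩ ⟨i', t'⟩ h
  have h0 : (L + 1) * (i : ℕ) + t = (L + 1) * i' + t' := congrArg Fin.val h
  have ht : (t : ℕ) ≤ L := Nat.lt_succ_iff.mp t.isLt
  have ht' : (t' : ℕ) ≤ L := Nat.lt_succ_iff.mp t'.isLt
  have h1 : (i : ℕ) = i' := by
    rw [← div_block (L := L) (i := i) ht, h0, div_block ht']
  have h2 : (t : ℕ) = t' := by
    rw [← mod_block (L := L) (i := i) ht, h0, mod_block ht']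
  rw [Fin.ext h1, Fin.ext h2]

/-- Extension of a parameter vector by zero. -/
def extR {L B : ℕ} (r : Fin B → Fin (2 * L + 1)) (i : ℕ) : ℕ :=
  if h : i < B then r ⟨i, h⟩ else 0

/-- The reference weights inside a block. -/
noncomputable def rho (L : ℕ) (δ : ℝ) (t : Fin (L + 1)) : ℝ :=
  δ / 2 + ((1 - ((L : ℝ) - 1) * δ / 2) / 2 - δ / 2) *
    ((if t = 0 then 1 else 0) + (if t = Fin.last L then 1 else 0))

/-- The perturbation inside a block. -/
noncomputable def hh (L : ℕ) (δ : ℝ) (t : Fin (L + 1)) : ℝ :=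
  δ / (2 * (1 - ((L : ℝ) - 1) * δ / 2)) *
    ((if t = Fin.last L then 1 else 0) - (if t = 0 then 1 else 0))

lemma zero_ne_last {L : ℕ} (hL : 1 ≤ L) : (0 : Fin (L + 1)) ≠ Fin.last L := by
  intro h
  have := congrArg Fin.val h
  simp at this
  lia

lemma fam_emb {n L B : ℕ} {δ : ℝ} (hL : 1 ≤ L) (hB : 0 < B) (hn : (L + 1) * B ≤ n)
    (hα : 0 < 1 - ((L : ℝ) - 1) * δ / 2) (r : Fin B → Fin (2 * L + 1))
    (z : Fin B × Fin (L + 1)) :
    fam n L B δ (extR r) (emb hn z) =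
      atom (rho L δ) (fun (r : Fin (2 * L + 1)) t => 1 + ((r : ℝ) - L) * hh L δ t) r z := by
  have hB' : (0 : ℝ) < B := by positivity
  obtain ⟨i, t⟩ := z
  have ht : (t : ℕ) ≤ L := Nat.lt_succ_iff.mp t.isLt
  have hr : extR r (i : ℕ) = r i := by
    unfold extR
    rw [dif_pos i.isLt]
  unfold fam mass atom emb
  simp only
  rw [div_block ht, mod_block ht, if_pos i.isLt, hr]
  unfold rho hh
  set A : ℝ := 1 - ((L : ℝ) - 1) * δ / 2 with hA
  set y : ℝ := δ / (2 * A) with hy0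
  have hy : A * y = δ / 2 := by
    rw [hy0]
    field_simp
  by_cases h0 : t = 0
  · subst h0
    have h1 : (0 : Fin (L + 1)) ≠ Fin.last L := zero_ne_last hL
    simp only [Fin.val_zero, if_true, if_neg h1]
    linear_combination ((((r i : ℕ) : ℝ) - L) / (2 * B)) * hy - (1 / (2 * B)) * hA
  · have h0' : (t : ℕ) ≠ 0 := fun h => h0 (Fin.ext h)
    by_cases h1 : t = Fin.last L
    · subst h1
      have h2 : ((Fin.last L : Fin (L + 1)) : ℕ) = L := Fin.val_last L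
      rw [h2]
      have hL0 : L ≠ 0 := by lia
      simp only [if_neg h0, if_neg hL0, if_true]
      linear_combination (-(((r i : ℕ) : ℝ) - L) / (2 * B)) * hy - (1 / (2 * B)) * hA
    · have h1' : (t : ℕ) ≠ L := fun h => h1 (Fin.ext h)
      simp only [if_neg h0, if_neg h1, if_neg h0', if_neg h1']
      field_simp
      ring

lemma fam_not_range {n L B : ℕ} {δ : ℝ} {r : ℕ → ℕ} (hn : (L + 1) * B ≤ n) (i : Fin n)
    (hi : i ∉ Set.range (emb hn)) : fam n L B δ r i = 0 := by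
  unfold fam mass
  have : ¬ (i : ℕ) / (L + 1) < B := by
    intro h
    apply hi
    refine ⟨(⟨(i : ℕ) / (L + 1), h⟩, ⟨(i : ℕ) % (L + 1), Nat.mod_lt _ (by lia)⟩), ?_⟩
    apply Fin.ext
    simp only [emb]
    exact Nat.div_add_mod _ _
  rw [if_neg this, zero_div]

lemma accept_fam {n L B s : ℕ} {δ : ℝ} (hL : 1 ≤ L) (hB : 0 < B) (hn : (L + 1) * B ≤ n)
    (hα : 0 < 1 - ((L : ℝ) - 1) * δ / 2) (r : Fin B → Fin (2 * L + 1))
    (T : (Fin s → Fin n) → ℝ) :
    acceptProb (fam n L B δ (extR r)) T =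
      ∑ ω : Fin s → Fin B × Fin (L + 1),
        (∏ k, atom (rho L δ) (fun (r : Fin (2 * L + 1)) t => 1 + ((r : ℝ) - L) * hh L δ t)
          r (ω k)) * T (fun k => emb hn (ω k)) := by
  unfold acceptProb
  symm
  apply Fintype.sum_of_injective (fun (ω : Fin s → Fin B × Fin (L + 1)) k => emb hn (ω k))
  · intro ω ω' h
    funext k
    exact emb_injective hn (congrFun h k)
  · intro ω hω
    have : ∃ k, ω k ∉ Set.range (emb hn) := by
      by_contra hcon
      push Not at hcon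
      choose g hg using hcon
      exact hω ⟨g, funext hg⟩
    obtain ⟨k, hk⟩ := this
    rw [Finset.prod_eq_zero (Finset.mem_univ k) (fam_not_range hn (ω k) hk), zero_mul]
  · intro ω
    congr 1
    apply Finset.prod_congr rfl
    intro k _
    rw [fam_emb hL hB hn hα]

lemma sum_mix_accept {n L B s : ℕ} {δ : ℝ} (hL : 1 ≤ L) (hB : 0 < B) (hn : (L + 1) * B ≤ n)
    (hα : 0 < 1 - ((L : ℝ) - 1) * δ / 2) (π : Fin (2 * L + 1) → ℝ)
    (T : (Fin s → Fin n) → ℝ) :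
    ∑ ω : Fin s → Fin B × Fin (L + 1),
      mix (rho L δ) (fun (r : Fin (2 * L + 1)) t => 1 + ((r : ℝ) - L) * hh L δ t) π ω *
        T (fun k => emb hn (ω k)) =
      ∑ r : Fin B → Fin (2 * L + 1), (∏ i, π (r i)) *
        acceptProb (fam n L B δ (extR r)) T := by
  simp_rw [accept_fam hL hB hn hα]
  unfold mix
  simp_rw [Finset.sum_mul, Finset.mul_sum]
  rw [Finset.sum_comm]
  apply Finset.sum_congr rfl
  intro r _
  apply Finset.sum_congr rfl
  intro ω _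
  ring

lemma sum_prod_one {R : Type*} [Fintype R] {B : ℕ} (π : R → ℝ) (hπ : ∑ r, π r = 1) :
    ∑ r : Fin B → R, ∏ i, π (r i) = 1 := by
  classical
  rw [← Fintype.sum_pow, hπ, one_pow]

lemma exp_lt_16 : Real.exp (25 / 12) < 16 := by
  have h : Real.exp (25 / 12) ^ 12 < 16 ^ 12 := by
    rw [← Real.exp_nat_mul]
    have e : ((12 : ℕ) : ℝ) * (25 / 12) = (25 : ℕ) * 1 := by norm_num
    rw [e, Real.exp_nat_mul]
    calc Real.exp 1 ^ 25 < 3 ^ 25 := by
          apply pow_lt_pow_left₀ _ (Real.exp_pos _).le (by norm_num)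
          exact Real.exp_one_lt_d9.trans (by norm_num)
      _ < 16 ^ 12 := by norm_num
  exact lt_of_pow_lt_pow_left₀ 12 (by norm_num) h

/-- Numerical part of the argument. -/
lemma numerics (L B s : ℕ) (δ b : ℝ) (hL : 1 ≤ L) (hB : 0 < B) (hδ : 0 < δ)
    (hLδ : L * δ ≤ 1 / 4) (hb : 1 ≤ b) (hbB : b ^ (2 * L) = B)
    (hs : (s : ℝ) * (4 * b * L * δ ^ 2) ≤ B) (α η : ℝ)
    (hα : α = 1 - ((L : ℝ) - 1) * δ / 2) (hη : η = δ / (2 * α)) :
    (B : ℝ) * (4 * ((24 * b) ^ (2 * L))⁻¹ * (((B : ℝ) - 1) / B + (1 - (L * η) ^ 2)⁻¹ / B +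
      (24 * b) * ((1 - (L * η) ^ 2)⁻¹ * (α * η ^ 2) / B * (L : ℝ) ^ 2)) ^ s) < 1 / 9 := by
  have hB' : (0 : ℝ) < B := by positivity
  have hL' : (1 : ℝ) ≤ L := by exact_mod_cast hL
  have hLpos : (0 : ℝ) < L := by linarith
  set D : ℝ := L * δ with hD
  have hD0 : 0 < D := by positivity
  have hα1 : 7 / 8 ≤ α := by
    rw [hα]
    nlinarith
  have hαpos : 0 < α := by linarith
  have hη0 : 0 < η := by rw [hη]; positivity
  have hLη : L * η ≤ 4 / 7 * D := by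
    have : L * η = D / (2 * α) := by rw [hη, hD]; ring
    rw [this, div_le_iff₀ (by positivity)]
    nlinarith
  have hz : (L * η) ^ 2 ≤ 16 / 49 * D ^ 2 := by
    calc (L * η) ^ 2 ≤ (4 / 7 * D) ^ 2 := pow_le_pow_left₀ (by positivity) hLη 2
      _ = 16 / 49 * D ^ 2 := by ring
  have hD2 : D ^ 2 ≤ 1 / 16 := by nlinarith
  have hz1 : (L * η) ^ 2 ≤ 1 / 49 := by linarith
  have hz1' : 0 < 1 - (L * η) ^ 2 := by linarith
  have N3 : (1 - (L * η) ^ 2)⁻¹ ≤ 1 + D ^ 2 / 3 := by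
    rw [inv_le_iff_one_le_mul₀ hz1']
    have h1 : 1 - 16 / 49 * D ^ 2 ≤ 1 - (L * η) ^ 2 := by linarith
    have h2 : 0 ≤ 1 + D ^ 2 / 3 := by positivity
    have h3 := mul_le_mul_of_nonneg_left h1 h2
    nlinarith [sq_nonneg D]
  have N3' : (1 - (L * η) ^ 2)⁻¹ ≤ 49 / 48 := by
    rw [inv_le_iff_one_le_mul₀ hz1']
    linarith
  have N4 : (1 - (L * η) ^ 2)⁻¹ * (α * η ^ 2) * (L : ℝ) ^ 2 ≤ D ^ 2 / 3 := by
    have h1 : (α * η ^ 2) * (L : ℝ) ^ 2 = D ^ 2 / (4 * α) := by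
      rw [hη, hD]
      field_simp
      ring
    have h2 : D ^ 2 / (4 * α) ≤ 2 / 7 * D ^ 2 := by
      rw [div_le_iff₀ (by positivity)]
      nlinarith
    calc (1 - (L * η) ^ 2)⁻¹ * (α * η ^ 2) * (L : ℝ) ^ 2 =
          (1 - (L * η) ^ 2)⁻¹ * ((α * η ^ 2) * (L : ℝ) ^ 2) := by ring
      _ ≤ 49 / 48 * (2 / 7 * D ^ 2) := by
          rw [h1]
          exact mul_le_mul N3' h2 (by positivity) (by norm_num)
      _ ≤ D ^ 2 / 3 := by nlinarith
  -- the base of the power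
  have hbase : ((B : ℝ) - 1) / B + (1 - (L * η) ^ 2)⁻¹ / B +
      (24 * b) * ((1 - (L * η) ^ 2)⁻¹ * (α * η ^ 2) / B * (L : ℝ) ^ 2) ≤
      (1 + 24 * b) * (D ^ 2 / (3 * B)) + 1 := by
    have e1 : ((B : ℝ) - 1) / B + (1 - (L * η) ^ 2)⁻¹ / B ≤ 1 + D ^ 2 / (3 * B) := by
      rw [← add_div, div_le_iff₀ hB']
      have : (1 + D ^ 2 / (3 * B)) * B = B + D ^ 2 / 3 := by field_simp
      rw [this]
      linarith
    have e2 : (1 - (L * η) ^ 2)⁻¹ * (α * η ^ 2) / B * (L : ℝ) ^ 2 ≤ D ^ 2 / (3 * B) := by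
      have : (1 - (L * η) ^ 2)⁻¹ * (α * η ^ 2) / B * (L : ℝ) ^ 2 =
          ((1 - (L * η) ^ 2)⁻¹ * (α * η ^ 2) * (L : ℝ) ^ 2) / B := by ring
      rw [this, div_le_iff₀ hB']
      have : D ^ 2 / (3 * B) * B = D ^ 2 / 3 := by field_simp
      rw [this]
      exact N4
    have e3 : (24 * b) * ((1 - (L * η) ^ 2)⁻¹ * (α * η ^ 2) / B * (L : ℝ) ^ 2) ≤
        (24 * b) * (D ^ 2 / (3 * B)) := mul_le_mul_of_nonneg_left e2 (by positivity)
    linarith
  have hbase0 : 0 ≤ ((B : ℝ) - 1) / B + (1 - (L * η) ^ 2)⁻¹ / B +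
      (24 * b) * ((1 - (L * η) ^ 2)⁻¹ * (α * η ^ 2) / B * (L : ℝ) ^ 2) := by
    have h1 : 0 ≤ ((B : ℝ) - 1) / B := by
      apply div_nonneg _ hB'.le
      have : (1 : ℝ) ≤ B := by exact_mod_cast hB
      linarith
    positivity
  have hpow : (((B : ℝ) - 1) / B + (1 - (L * η) ^ 2)⁻¹ / B +
      (24 * b) * ((1 - (L * η) ^ 2)⁻¹ * (α * η ^ 2) / B * (L : ℝ) ^ 2)) ^ s ≤
      Real.exp (25 / 12) ^ L := by
    calc _ ≤ (Real.exp ((1 + 24 * b) * (D ^ 2 / (3 * B)))) ^ s :=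
          pow_le_pow_left₀ hbase0 (hbase.trans (Real.add_one_le_exp _)) s
      _ = Real.exp (s * ((1 + 24 * b) * (D ^ 2 / (3 * B)))) := by rw [← Real.exp_nat_mul]
      _ ≤ Real.exp (L * (25 / 12)) := by
          apply Real.exp_le_exp.mpr
          have e1 : (s : ℝ) * (D ^ 2 / B) ≤ L / (4 * b) := by
            rw [le_div_iff₀ (by positivity), mul_div_assoc', div_mul_eq_mul_div,
              div_le_iff₀ hB']
            have : (s : ℝ) * D ^ 2 * (4 * b) = (s * (4 * b * L * δ ^ 2)) * L := by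
              rw [hD]; ring
            rw [this]
            nlinarith
          have e2 : (s : ℝ) * ((1 + 24 * b) * (D ^ 2 / (3 * B))) =
              (1 + 24 * b) / 3 * (s * (D ^ 2 / B)) := by
            field_simp
          rw [e2]
          calc (1 + 24 * b) / 3 * (s * (D ^ 2 / B)) ≤ (1 + 24 * b) / 3 * (L / (4 * b)) :=
                mul_le_mul_of_nonneg_left e1 (by positivity)
            _ ≤ L * (25 / 12) := by
                have : (1 + 24 * b) / 3 * (L / (4 * b)) = L * ((1 + 24 * b) / (12 * b)) := by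
                  field_simp
                  ring
                rw [this]
                apply mul_le_mul_of_nonneg_left _ hLpos.le
                rw [div_le_iff₀ (by positivity)]
                linarith
      _ = Real.exp (25 / 12) ^ L := by rw [Real.exp_nat_mul]
  have hC : 0 ≤ (B : ℝ) * (4 * ((24 * b) ^ (2 * L))⁻¹) := by positivity
  have h1 := mul_le_mul_of_nonneg_left hpow hC
  have e0 : (B : ℝ) * (4 * ((24 * b) ^ (2 * L))⁻¹) * Real.exp (25 / 12) ^ L =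
      4 * (Real.exp (25 / 12) / 576) ^ L := by
    rw [mul_pow, hbB, div_pow, pow_mul (24 : ℝ) 2 L]
    norm_num
    field_simp
  rw [e0] at h1
  have h2 : (Real.exp (25 / 12) / 576) ^ L < 1 / 36 := by
    have h3 : Real.exp (25 / 12) / 576 < 1 / 36 := by
      have := exp_lt_16
      linarith
    calc (Real.exp (25 / 12) / 576) ^ L ≤ (Real.exp (25 / 12) / 576) ^ 1 := by
          apply pow_le_pow_of_le_one (by positivity) (by linarith) hL
      _ < 1 / 36 := by rw [pow_one]; exact h3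
  calc _ = (B : ℝ) * (4 * ((24 * b) ^ (2 * L))⁻¹) * (((B : ℝ) - 1) / B +
        (1 - (L * η) ^ 2)⁻¹ / B +
        (24 * b) * ((1 - (L * η) ^ 2)⁻¹ * (α * η ^ 2) / B * (L : ℝ) ^ 2)) ^ s := by ring
    _ ≤ 4 * (Real.exp (25 / 12) / 576) ^ L := h1
    _ < 1 / 9 := by linarith

end Pool.Agent.Binning
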