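import Pool.Agent.Binning.Defs

namespace Pool.Agent.Binning

open Finset

/-- Every monotone map is described by its cuts. -/
lemma exists_cuts {n m : ℕ} (f : Fin n → Fin m) (hf : Monotone f) :
    ∃ c : ℕ → ℕ, c 0 = 0 ∧ c m = n ∧ (∀ j, c j ≤ c (j + 1)) ∧
      ∀ (j : ℕ) (i : Fin n), (f i : ℕ) < j ↔ (i : ℕ) < c j := by
  classical
  refine ⟨fun j => (univ.filter fun i : Fin n => (f i : ℕ) < j).card, by simp, ?_, ?_, ?_⟩
  · have : (univ.filter fun i : Fin n => (f i : ℕ) < m) = univ := by
      ext i
      simp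
    simp
  · intro j
    apply Finset.card_le_card
    intro i hi
    simp only [Finset.mem_filter, Finset.mem_univ, true_and] at hi ⊢
    lia
  · intro j i
    constructor
    · intro h
      have hsub : (univ.filter fun i' : Fin n => (i' : ℕ) ≤ i) ⊆
          (univ.filter fun i' : Fin n => (f i' : ℕ) < j) := by
        intro i' hi'
        simp only [Finset.mem_filter, Finset.mem_univ, true_and] at hi' ⊢
        have : f i' ≤ f i := hf (Fin.le_def.mpr hi')
        exact lt_of_le_of_lt (Fin.le_def.mp this) h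
      have hc := Finset.card_le_card hsub
      have : (univ.filter fun i' : Fin n => (i' : ℕ) ≤ i).card = i + 1 := by
        have e : (univ.filter fun i' : Fin n => (i' : ℕ) ≤ i) = Finset.Iic i := by
          ext i'
          simp only [Finset.mem_filter, Finset.mem_univ, true_and, Finset.mem_Iic, Fin.le_def]
        rw [e, Fin.card_Iic]
      lia
    · intro h
      by_contra hcon
      push Not at hcon
      have hsub : (univ.filter fun i' : Fin n => (f i' : ℕ) < j) ⊆
          (univ.filter fun i' : Fin n => (i' : ℕ) < i) := by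
        intro i' hi'
        simp only [Finset.mem_filter, Finset.mem_univ, true_and] at hi' ⊢
        by_contra hge
        push Not at hge
        have : f i ≤ f i' := hf (Fin.le_def.mpr hge)
        have := Fin.le_def.mp this
        lia
      have hc := Finset.card_le_card hsub
      have : (univ.filter fun i' : Fin n => (i' : ℕ) < i).card = i := by
        have e : (univ.filter fun i' : Fin n => (i' : ℕ) < i) = Finset.Iio i := by
          ext i'
          simp only [Finset.mem_filter, Finset.mem_univ, true_and, Finset.mem_Iio, Fin.lt_def]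
        rw [e, Fin.card_Iio]
      lia

lemma sum_lt_cut (n c : ℕ) (hc : c ≤ n) (P : ℕ → ℝ) :
    ∑ i : Fin n, (if (i : ℕ) < c then P i else 0) = ∑ x ∈ range c, P x := by
  classical
  rw [← Finset.sum_range (fun i => if i < c then P i else 0), ← Finset.sum_filter]
  apply Finset.sum_congr _ fun _ _ => rfl
  ext x
  simp only [Finset.mem_filter, Finset.mem_range]
  lia

/-- The push-forward in terms of cuts. -/
lemma push_eq_cuts {n m : ℕ} (f : Fin n → Fin m) (c : ℕ → ℕ) (P : ℕ → ℝ)
    (hcn : ∀ j ≤ m, c j ≤ n)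
    (hc : ∀ j ≤ m, ∀ i : Fin n, (f i : ℕ) < j ↔ (i : ℕ) < c j) (j : Fin m) :
    push f (fun i => P i) j = ∑ x ∈ range (c (j + 1)), P x - ∑ x ∈ range (c j), P x := by
  classical
  have hj1 : (j : ℕ) + 1 ≤ m := j.isLt
  have hj0 : (j : ℕ) ≤ m := j.isLt.le
  rw [← sum_lt_cut n (c (j + 1)) (hcn _ hj1) P, ← sum_lt_cut n (c j) (hcn _ hj0) P,
    ← Finset.sum_sub_distrib]
  unfold push
  rw [Finset.sum_filter]
  apply Finset.sum_congr rfl
  intro i _
  have h1 := hc (j + 1) hj1 i
  have h2 := hc j hj0 i
  by_cases h : f i = j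
  · have e : (f i : ℕ) = j := by rw [h]
    have a1 : (i : ℕ) < c (j + 1) := h1.mp (by lia)
    have a2 : ¬ (i : ℕ) < c j := fun hh => by
      have := h2.mpr hh
      lia
    simp [h, a1, a2]
  · have e : (f i : ℕ) ≠ j := fun hh => h (Fin.ext hh)
    rcases lt_or_gt_of_ne e with hlt | hgt
    · have a1 : (i : ℕ) < c (j + 1) := h1.mp (by lia)
      have a2 : (i : ℕ) < c j := h2.mp hlt
      simp [h, a1, a2]
    · have a1 : ¬ (i : ℕ) < c (j + 1) := fun hh => by
        have := h1.mpr hh
        lia
      have a2 : ¬ (i : ℕ) < c j := fun hh => by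
        have := h2.mpr hh
        lia
      simp [h, a1, a2]

/-- A coarsening with prescribed cuts. -/
lemma exists_coarsening {n m : ℕ} (hm : 1 ≤ m) (c : ℕ → ℕ) (hc0 : c 0 = 0) (hcm : c m = n)
    (hc : ∀ j < m, c j < c (j + 1)) :
    ∃ f : Fin n → Fin m, IsCoarsening f ∧
      ∀ j ≤ m, ∀ i : Fin n, (f i : ℕ) < j ↔ (i : ℕ) < c j := by
  classical
  have hmono : ∀ a b, a ≤ b → b ≤ m → c a ≤ c b := by
    intro a b hab
    induction b, hab using Nat.le_induction with
    | base => intro _; exact le_rfl
    | succ b _ ih =>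
      intro hb
      exact (ih (by lia)).trans (hc b (by lia)).le
  set F : Fin n → Fin m := fun i => ⟨Nat.findGreatest (fun j => c j ≤ (i : ℕ)) (m - 1), by
    have := Nat.findGreatest_le (P := fun j => c j ≤ (i : ℕ)) (m - 1)
    lia⟩ with hF
  have hkey : ∀ j ≤ m, ∀ i : Fin n, (F i : ℕ) < j ↔ (i : ℕ) < c j := by
    intro j hj i
    have hspec : c (F i) ≤ (i : ℕ) :=
      Nat.findGreatest_spec (P := fun j => c j ≤ (i : ℕ)) (m := 0) (Nat.zero_le _)
        (by simp [hc0])
    constructor
    · intro h
      by_contra hcon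
      push Not at hcon
      rcases Nat.lt_or_ge j m with hjm | hjm
      · have : j ≤ (F i : ℕ) :=
          Nat.le_findGreatest (P := fun j => c j ≤ (i : ℕ)) (by lia) hcon
        lia
      · have : j = m := by lia
        subst this
        have := i.isLt
        lia
    · intro h
      by_contra hcon
      push Not at hcon
      have := hmono j (F i) hcon (F i).isLt.le
      lia
  refine ⟨F, ⟨?_, ?_⟩, hkey⟩
  · intro i i' hii
    rw [Fin.le_def]
    by_contra hcon
    push Not at hcon
    have h1 := (hkey (F i) (F i).isLt.le i').mp hcon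
    have h2 := (hkey (F i) (F i).isLt.le i)
    have h3 : ¬ (i : ℕ) < c (F i) := fun hh => by
      have := h2.mpr hh
      lia
    have := Fin.le_def.mp hii
    lia
  · intro j
    have hlt : c j < n := by
      have h1 := hc j j.isLt
      have h2 := hmono (j + 1) m j.isLt le_rfl
      lia
    refine ⟨⟨c j, hlt⟩, ?_⟩
    apply Fin.ext
    have h1 := hkey j j.isLt.le ⟨c j, hlt⟩
    have h2 := hkey (j + 1) j.isLt ⟨c j, hlt⟩
    have h3 := hc j j.isLt
    have h4 : ¬ ((F ⟨c j, hlt⟩ : Fin m) : ℕ) < j := fun hh => by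
      have := h1.mp hh
      simp at this
    have h5 : ((F ⟨c j, hlt⟩ : Fin m) : ℕ) < j + 1 := h2.mpr (by simpa using h3)
    lia

end Pool.Agent.Binning
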