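import Pool.Agent.Binning.Family

namespace Pool.Agent.Binning

open Finset

/-- The reference distribution: uniform on the first `2B` elements. -/
noncomputable def refQ (B m : ℕ) (j : Fin m) : ℝ := if (j : ℕ) < 2 * B then 1 / (2 * B) else 0

/-- The family of distributions. -/
noncomputable def fam (n L B : ℕ) (δ : ℝ) (r : ℕ → ℕ) (i : Fin n) : ℝ :=
  mass L B δ r i / (2 * B)

variable {n m L B : ℕ} {δ : ℝ} {r : ℕ → ℕ}

lemma refQ_isDist (hB : 0 < B) (hm : 2 * B ≤ m) : IsDist (refQ B m) := by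
  have hB' : (0 : ℝ) < B := by positivity
  refine ⟨fun j => ?_, ?_⟩
  · unfold refQ
    split_ifs <;> positivity
  · unfold refQ
    rw [sum_lt_cut m (2 * B) hm (fun _ => 1 / (2 * (B : ℝ)))]
    rw [Finset.sum_const, Finset.card_range, nsmul_eq_mul]
    push_cast
    field_simp

lemma cdf_of_ge {c : ℕ} (h : (L + 1) * B ≤ c) : cdf L B δ r c = 2 * B := by
  unfold cdf
  have : ¬ c / (L + 1) < B := by
    rw [not_lt, Nat.le_div_iff_mul_le (by lia), mul_comm]
    exact h
  simp [this]

lemma level_of_ge {c : ℕ} (h : (L + 1) * B ≤ c) : level L B c = 2 * B := by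
  unfold level
  have : ¬ c / (L + 1) < B := by
    rw [not_lt, Nat.le_div_iff_mul_le (by lia), mul_comm]
    exact h
  simp [this]

lemma div_block {i t : ℕ} (ht : t ≤ L) : ((L + 1) * i + t) / (L + 1) = i := by
  rw [Nat.mul_add_div (by lia), Nat.div_eq_of_lt (by lia), add_zero]

lemma mod_block {i t : ℕ} (ht : t ≤ L) : ((L + 1) * i + t) % (L + 1) = t := by
  rw [Nat.mul_add_mod, Nat.mod_eq_of_lt (by lia)]

lemma cdf_block {i t : ℕ} (hi : i < B) (ht : t ≤ L) :
    cdf L B δ r ((L + 1) * i + t) = 2 * (i : ℝ) + (if t = 0 then 0 else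
      1 - ((r i : ℝ) - 1) * δ / 2 + ((t : ℝ) - 1) * δ) := by
  unfold cdf
  rw [div_block ht, mod_block ht]
  simp [hi]

lemma fam_isDist (hL : 1 ≤ L) (hB : 0 < B) (hδ : 0 ≤ δ) (hLδ : L * δ ≤ 1 / 4)
    (hr : ∀ i < B, r i ≤ 2 * L) (hn : (L + 1) * B ≤ n) : IsDist (fam n L B δ r) := by
  have hB' : (0 : ℝ) < B := by positivity
  refine ⟨fun i => ?_, ?_⟩
  · unfold fam
    exact div_nonneg (mass_nonneg hδ hLδ hr _) (by positivity)
  · unfold fam
    rw [← Finset.sum_range (fun i => mass L B δ r i / (2 * B)), ← Finset.sum_div,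
      sum_mass hL hB, cdf_of_ge hn]
    field_simp

/-- The cuts of the coarsening for a null distribution. -/
def cutN (n m L B : ℕ) (r : ℕ → ℕ) (j : ℕ) : ℕ :=
  if j = m then n
  else if j < 2 * B then (L + 1) * (j / 2) + (if j % 2 = 0 then 0 else (r (j / 2) + 1) / 2)
  else (L + 1) * B + (j - 2 * B)

lemma cutN_lt (hm : 2 * B ≤ m) (hn : (L + 1) * B + (m - 2 * B) ≤ n)
    (hr : ∀ i < B, Odd (r i) ∧ r i ≤ 2 * L) {j : ℕ} (hj : j < m) :
    cutN n m L B r j < cutN n m L B r (j + 1) := by
  unfold cutN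
  have hjm : j ≠ m := hj.ne
  rw [if_neg hjm]
  by_cases h2 : j < 2 * B
  · rw [if_pos h2]
    have hi : j / 2 < B := by lia
    obtain ⟨⟨k, hk⟩, hle⟩ := hr _ hi
    have hsub : (r (j / 2) + 1) / 2 = k + 1 := by lia
    have hkL : k + 1 ≤ L := by lia
    rw [hsub]
    rcases Nat.mod_two_eq_zero_or_one j with hp | hp
    · -- `j` even
      have hj1 : (j + 1) / 2 = j / 2 := by lia
      have hj2 : (j + 1) % 2 = 1 := by lia
      have hj3 : j + 1 < 2 * B := by lia
      have hj4 : j + 1 ≠ m := by lia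
      rw [if_neg hj4, if_pos hj3, hj1, hj2, hp, hsub]
      simp
    · have hj2 : (j + 1) % 2 = 0 := by lia
      have hj1 : (j + 1) / 2 = j / 2 + 1 := by lia
      have hexp : (L + 1) * (j / 2 + 1) = (L + 1) * (j / 2) + (L + 1) := by ring
      have hBle : (L + 1) * (j / 2 + 1) ≤ (L + 1) * B := Nat.mul_le_mul_left _ (by lia)
      have hgoal : (L + 1) * (j / 2) + (k + 1) < (L + 1) * (j / 2 + 1) := by lia
      rw [hp]
      simp only [Nat.one_ne_zero, if_false]
      by_cases h4 : j + 1 = m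
      · rw [if_pos h4]
        lia
      · rw [if_neg h4]
        by_cases h5 : j + 1 < 2 * B
        · rw [if_pos h5, hj1, hj2]
          simpa using hgoal
        · rw [if_neg h5]
          lia
  · rw [if_neg h2]
    by_cases h4 : j + 1 = m
    · rw [if_pos h4]
      lia
    · rw [if_neg h4, if_neg (by lia)]
      lia

lemma cdf_cutN (hm : 2 * B ≤ m) (hn : (L + 1) * B + (m - 2 * B) ≤ n)
    (hr : ∀ i < B, Odd (r i) ∧ r i ≤ 2 * L) {j : ℕ} :
    cdf L B δ r (cutN n m L B r j) = (if j < 2 * B then (j : ℝ) else 2 * B) := by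
  unfold cutN
  by_cases hjm : j = m
  · rw [if_pos hjm, cdf_of_ge (by lia), if_neg (by lia)]
  · rw [if_neg hjm]
    by_cases h2 : j < 2 * B
    · rw [if_pos h2, if_pos h2]
      have hi : j / 2 < B := by lia
      obtain ⟨⟨k, hk⟩, hle⟩ := hr _ hi
      have hsub : (r (j / 2) + 1) / 2 = k + 1 := by lia
      rcases Nat.mod_two_eq_zero_or_one j with hp | hp
      · rw [hp]
        simp only [if_true]
        rw [cdf_block hi (Nat.zero_le _)]
        simp only [if_true, add_zero]
        have : 2 * (j / 2) = j := by lia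
        exact_mod_cast this
      · rw [hp, hsub]
        simp only [Nat.one_ne_zero, if_false]
        rw [cdf_block hi (by lia), if_neg (by lia), hk]
        have : 2 * (j / 2) + 1 = j := by lia
        have h' : 2 * ((j / 2 : ℕ) : ℝ) + 1 = j := by exact_mod_cast this
        rw [← h']
        push_cast
        ring
    · rw [if_neg h2, if_neg h2, cdf_of_ge (by lia)]

lemma push_fam (hL : 1 ≤ L) (hB : 0 < B) (f : Fin n → Fin m) (c : ℕ → ℕ)
    (hcn : ∀ j ≤ m, c j ≤ n)
    (hc : ∀ j ≤ m, ∀ i : Fin n, (f i : ℕ) < j ↔ (i : ℕ) < c j) (j : Fin m) :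
    push f (fam n L B δ r) j = (cdf L B δ r (c (j + 1)) - cdf L B δ r (c j)) / (2 * B) := by
  have h := push_eq_cuts f c (fun x => mass L B δ r x / (2 * B)) hcn hc j
  have e : push f (fam n L B δ r) j = push f (fun i : Fin n => mass L B δ r i / (2 * B)) j := rfl
  rw [e, h, ← Finset.sum_div, ← Finset.sum_div, sum_mass hL hB, sum_mass hL hB]
  ring

/-- The null distributions have the reference distribution as a coarsening. -/
lemma fam_null (hL : 1 ≤ L) (hB : 0 < B) (hm : 2 * B ≤ m)
    (hn : (L + 1) * B + (m - 2 * B) ≤ n)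
    (hr : ∀ i < B, Odd (r i) ∧ r i ≤ 2 * L) :
    ∃ f : Fin n → Fin m, IsCoarsening f ∧ push f (fam n L B δ r) = refQ B m := by
  have hB' : (0 : ℝ) < B := by positivity
  have hc0 : cutN n m L B r 0 = 0 := by
    unfold cutN
    rw [if_neg (by lia), if_pos (by lia)]
    simp
  have hcm : cutN n m L B r m = n := by
    unfold cutN
    rw [if_pos rfl]
  obtain ⟨f, hf, hfc⟩ := exists_coarsening (by lia) (cutN n m L B r) hc0 hcm
    (fun j hj => cutN_lt hm hn hr hj)
  refine ⟨f, hf, ?_⟩
  have hmono : ∀ a b, a ≤ b → b ≤ m → cutN n m L B r a ≤ cutN n m L B r b := by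
    intro a b hab
    induction b, hab using Nat.le_induction with
    | base => intro _; exact le_rfl
    | succ b _ ih =>
      intro hb
      exact (ih (by lia)).trans (cutN_lt hm hn hr (by lia)).le
  have hcn : ∀ j ≤ m, cutN n m L B r j ≤ n := by
    intro j hj
    have := hmono j m hj le_rfl
    rwa [hcm] at this
  funext j
  rw [push_fam hL hB f _ hcn hfc j, cdf_cutN hm hn hr, cdf_cutN hm hn hr]
  unfold refQ
  by_cases h1 : (j : ℕ) + 1 < 2 * B
  · have h2 : (j : ℕ) < 2 * B := by lia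
    rw [if_pos h1, if_pos h2, if_pos h2]
    push_cast
    ring
  · by_cases h2 : (j : ℕ) < 2 * B
    · rw [if_neg h1, if_pos h2, if_pos h2]
      have : (j : ℕ) + 1 = 2 * B := by lia
      have h' : (j : ℝ) + 1 = 2 * B := by exact_mod_cast this
      rw [← h']
      ring
    · rw [if_neg h1, if_neg h2, if_neg h2]
      ring

/-- The alternative distributions are far from refining the reference distribution. -/
lemma fam_alt (hL : 1 ≤ L) (hB : 0 < B) (hδ : 0 ≤ δ) (hLδ : L * δ ≤ 1 / 4)
    (hn : (L + 1) * B ≤ n)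
    (hr : ∀ i < B, Even (r i) ∧ r i ≤ 2 * L) (f : Fin n → Fin m) (hf : IsCoarsening f) :
    δ / 4 ≤ tv (push f (fam n L B δ r)) (refQ B m) := by
  have hB' : (0 : ℝ) < B := by positivity
  obtain ⟨c, hc0, hcm, hmono, hfc⟩ := exists_cuts f hf.1
  have hmono' : Monotone c := monotone_nat_of_le_succ hmono
  have hcn : ∀ j ≤ m, c j ≤ n := fun j hj => by
    rw [← hcm]
    exact hmono' hj
  have key : ∀ j : Fin m, δ / 2 * ((level L B (c (j + 1)) : ℝ) - level L B (c j)) / (2 * B) ≤
      |push f (fam n L B δ r) j - refQ B m j| := by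
    intro j
    rw [push_fam hL hB f c hcn (fun j _ i => hfc j i) j]
    obtain ⟨h1, h2⟩ := interval_ge hL hB hδ hLδ (fun i hi => (hr i hi).2)
      (fun i hi => (hr i hi).1) (hmono j)
    unfold refQ
    by_cases h : (j : ℕ) < 2 * B
    · rw [if_pos h]
      have e : (cdf L B δ r (c (j + 1)) - cdf L B δ r (c j)) / (2 * B) - 1 / (2 * B) =
          (cdf L B δ r (c (j + 1)) - cdf L B δ r (c j) - 1) / (2 * (B : ℝ)) := by ring
      rw [e, abs_div, abs_of_pos (by positivity : (0 : ℝ) < 2 * B)]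
      exact div_le_div_of_nonneg_right h1 (by positivity)
    · rw [if_neg h, sub_zero, abs_div, abs_of_pos (by positivity : (0 : ℝ) < 2 * B)]
      exact div_le_div_of_nonneg_right h2 (by positivity)
  have hsum : ∑ j : Fin m, δ / 2 * ((level L B (c (j + 1)) : ℝ) - level L B (c j)) / (2 * B) =
      δ / 2 := by
    rw [← Finset.sum_range (fun j => δ / 2 * ((level L B (c (j + 1)) : ℝ) - level L B (c j)) /
      (2 * B)), ← Finset.sum_div, ← Finset.mul_sum,
      Finset.sum_range_sub (fun j => (level L B (c j) : ℝ)), hc0, hcm, level_of_ge hn]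
    have h0 : level L B 0 = 0 := by
      unfold level
      simp [hB]
    rw [h0]
    push_cast
    field_simp
    ring
  unfold tv
  have := Finset.sum_le_sum (s := (univ : Finset (Fin m))) (fun j _ => key j)
  rw [hsum] at this
  linarith

end Pool.Agent.Binning
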