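import Pool.Agent.Binning.Cuts

namespace Pool.Agent.Binning

open Finset

/-- The mass (times `2B`) of the atom `c`; blocks of `L + 1` atoms, block `i` has parameter
`r i ∈ {0, …, 2L}`. -/
noncomputable def mass (L B : ℕ) (δ : ℝ) (r : ℕ → ℕ) (c : ℕ) : ℝ :=
  if c / (L + 1) < B then
    if c % (L + 1) = 0 then 1 - ((r (c / (L + 1)) : ℝ) - 1) * δ / 2
    else if c % (L + 1) = L then 1 - ((L : ℝ) - 1) * δ + ((r (c / (L + 1)) : ℝ) - 1) * δ / 2
    else δ
  else 0

/-- The partial sums of `mass`. -/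
noncomputable def cdf (L B : ℕ) (δ : ℝ) (r : ℕ → ℕ) (c : ℕ) : ℝ :=
  if c / (L + 1) < B then
    2 * ((c / (L + 1) : ℕ) : ℝ) + (if c % (L + 1) = 0 then 0 else
      1 - ((r (c / (L + 1)) : ℝ) - 1) * δ / 2 + (((c % (L + 1) : ℕ) : ℝ) - 1) * δ)
  else 2 * B

/-- The ideal level of a cut. -/
def level (L B : ℕ) (c : ℕ) : ℕ :=
  if c / (L + 1) < B then 2 * (c / (L + 1)) + (if c % (L + 1) = 0 then 0 else 1) else 2 * B

variable {L B : ℕ} {δ : ℝ} {r : ℕ → ℕ}

lemma cdf_succ (hL : 1 ≤ L) (c : ℕ) :
    cdf L B δ r (c + 1) = cdf L B δ r c + mass L B δ r c := by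
  have hdm := Nat.div_add_mod c (L + 1)
  have hlt : c % (L + 1) < L + 1 := Nat.mod_lt _ (by lia)
  rcases Nat.lt_or_ge (c % (L + 1)) L with ht | ht
  · -- same block
    have h1 : (c + 1) / (L + 1) = c / (L + 1) := by
      rw [Nat.div_eq_iff (by lia), mul_comm (c / (L + 1)) (L + 1)]
      constructor <;> lia
    have h2 : (c + 1) % (L + 1) = c % (L + 1) + 1 := by
      have := Nat.div_add_mod (c + 1) (L + 1)
      rw [h1] at this
      lia
    unfold cdf mass
    rw [h1, h2]
    by_cases hB : c / (L + 1) < B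
    · simp only [hB, if_true]
      by_cases h0 : c % (L + 1) = 0
      · simp [h0]
      · have h3 : c % (L + 1) ≠ L := ht.ne
        simp only [h0, h3, if_false, Nat.succ_ne_zero]
        push_cast
        ring
    · simp [hB]
  · have htL : c % (L + 1) = L := by lia
    have h1 : (c + 1) / (L + 1) = c / (L + 1) + 1 := by
      have e : (c / (L + 1) + 1) * (L + 1) = (L + 1) * (c / (L + 1)) + (L + 1) := by ring
      rw [Nat.div_eq_iff (by lia), e]
      constructor <;> lia
    have h2 : (c + 1) % (L + 1) = 0 := by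
      have := Nat.div_add_mod (c + 1) (L + 1)
      rw [h1] at this
      have e : (L + 1) * (c / (L + 1) + 1) = (L + 1) * (c / (L + 1)) + (L + 1) := by ring
      lia
    unfold cdf mass
    rw [h1, h2, htL]
    have hL0 : L ≠ 0 := by lia
    by_cases hB : c / (L + 1) < B
    · by_cases hB2 : c / (L + 1) + 1 < B
      · simp only [hB, hB2, if_true, hL0, if_false]
        push_cast
        ring
      · have hB3 : c / (L + 1) + 1 = B := by lia
        simp only [hB, hB2, if_true, hL0, if_false]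
        rw [← hB3]
        push_cast
        ring
    · have hB2 : ¬ c / (L + 1) + 1 < B := by lia
      simp [hB, hB2]

lemma cdf_zero (hB : 0 < B) : cdf L B δ r 0 = 0 := by
  unfold cdf
  simp [hB]

lemma sum_mass (hL : 1 ≤ L) (hB : 0 < B) (c : ℕ) :
    ∑ x ∈ range c, mass L B δ r x = cdf L B δ r c := by
  induction c with
  | zero => simp [cdf_zero hB]
  | succ c ih => rw [Finset.sum_range_succ, ih, cdf_succ hL]

lemma mass_nonneg (hδ : 0 ≤ δ) (hLδ : L * δ ≤ 1 / 4) (hr : ∀ i < B, r i ≤ 2 * L) (c : ℕ) :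
    0 ≤ mass L B δ r c := by
  unfold mass
  split_ifs with h1 h2 h3
  · have h := hr _ h1
    have h' : (r (c / (L + 1)) : ℝ) ≤ 2 * L := by exact_mod_cast h
    nlinarith
  · have h' : (0 : ℝ) ≤ r (c / (L + 1)) := by positivity
    nlinarith
  · exact hδ
  · exact le_rfl

lemma cdf_mono (hL : 1 ≤ L) (hB : 0 < B) (hδ : 0 ≤ δ) (hLδ : L * δ ≤ 1 / 4)
    (hr : ∀ i < B, r i ≤ 2 * L) {c c' : ℕ} (h : c ≤ c') :
    cdf L B δ r c ≤ cdf L B δ r c' := by
  rw [← sum_mass hL hB, ← sum_mass hL hB]
  exact Finset.sum_le_sum_of_subset_of_nonneg (Finset.range_mono h)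
    (fun x _ _ => mass_nonneg hδ hLδ hr x)

lemma level_mono {c c' : ℕ} (h : c ≤ c') : level L B c ≤ level L B c' := by
  have hdm := Nat.div_add_mod c (L + 1)
  have hdm' := Nat.div_add_mod c' (L + 1)
  have h1 : c / (L + 1) ≤ c' / (L + 1) := Nat.div_le_div_right h
  unfold level
  split_ifs with a1 a2 a3 a4 a5 a6
  all_goals try lia
  -- remaining: `c` not at a block start, `c'` at a block start
  all_goals
    rcases Nat.lt_or_ge (c / (L + 1)) (c' / (L + 1)) with hh | hh
    · lia
    · exfalso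
      have h2 : c / (L + 1) = c' / (L + 1) := le_antisymm h1 hh
      rw [h2] at hdm
      lia

lemma abs_cdf_sub_level_le (hδ : 0 ≤ δ) (hLδ : L * δ ≤ 1 / 4)
    (hr : ∀ i < B, r i ≤ 2 * L) (c : ℕ) : |cdf L B δ r c - level L B c| ≤ 1 / 4 := by
  unfold cdf level
  split_ifs with h1 h2
  · norm_num
  · have h := hr _ h1
    have h' : (r (c / (L + 1)) : ℝ) ≤ 2 * L := by exact_mod_cast h
    have h0 : (0 : ℝ) ≤ r (c / (L + 1)) := by positivity
    have h3 : c % (L + 1) ≤ L := Nat.lt_succ_iff.mp (Nat.mod_lt _ (by lia))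
    have h4 : ((c % (L + 1) : ℕ) : ℝ) ≤ L := by exact_mod_cast h3
    have h5 : (1 : ℝ) ≤ ((c % (L + 1) : ℕ) : ℝ) := by
      have : 1 ≤ c % (L + 1) := by lia
      exact_mod_cast this
    rw [abs_le]
    push_cast
    constructor <;> nlinarith
  · norm_num

lemma cdf_eq_level_of_even {c : ℕ} (h : Even (level L B c)) :
    cdf L B δ r c = level L B c := by
  unfold cdf level
  unfold level at h
  split_ifs at h ⊢ with h1 h2
  · push_cast
    ring
  · exfalso
    rcases h with ⟨k, hk⟩
    lia
  · push_cast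
    ring

lemma abs_cdf_sub_level_ge (hδ : 0 ≤ δ) (hr : ∀ i < B, Even (r i)) {c : ℕ}
    (h : Odd (level L B c)) : δ / 2 ≤ |cdf L B δ r c - level L B c| := by
  unfold cdf level
  unfold level at h
  split_ifs at h ⊢ with h1 h2
  · exfalso
    rcases h with ⟨k, hk⟩
    lia
  · obtain ⟨k, hk⟩ := hr _ h1
    rw [hk]
    set t := c % (L + 1) with ht
    have e : 2 * ((c / (L + 1) : ℕ) : ℝ) + (1 - (((k + k : ℕ) : ℝ) - 1) * δ / 2 +
        ((t : ℝ) - 1) * δ) - ((2 * (c / (L + 1)) + 1 : ℕ) : ℝ) =
        (2 * ((t : ℤ) - k : ℤ) - 1 : ℤ) * (δ / 2) := by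
      push_cast
      ring
    rw [e, abs_mul, abs_of_nonneg (by positivity : (0 : ℝ) ≤ δ / 2)]
    have h3 : (1 : ℝ) ≤ |((2 * ((t : ℤ) - k : ℤ) - 1 : ℤ) : ℝ)| := by
      rw [← Int.cast_abs]
      have : (1 : ℤ) ≤ |2 * ((t : ℤ) - k) - 1| := by
        apply Int.one_le_abs
        lia
      exact_mod_cast this
    nlinarith
  · exfalso
    rcases h with ⟨k, hk⟩
    lia

/-- The key comparison of an interval with the level it spans. -/
lemma interval_ge (hL : 1 ≤ L) (hB : 0 < B) (hδ : 0 ≤ δ) (hLδ : L * δ ≤ 1 / 4)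
    (hr : ∀ i < B, r i ≤ 2 * L) (hev : ∀ i < B, Even (r i)) {c c' : ℕ} (h : c ≤ c') :
    δ / 2 * ((level L B c' : ℝ) - level L B c) ≤ |cdf L B δ r c' - cdf L B δ r c - 1| ∧
    δ / 2 * ((level L B c' : ℝ) - level L B c) ≤ |cdf L B δ r c' - cdf L B δ r c| := by
  have hmono := cdf_mono hL hB hδ hLδ hr h
  have a1 := abs_le.mp (abs_cdf_sub_level_le hδ hLδ hr c)
  have a2 := abs_le.mp (abs_cdf_sub_level_le hδ hLδ hr c')
  have hδ4 : δ ≤ 1 / 4 := by
    have : (1 : ℝ) ≤ L := by exact_mod_cast hL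
    nlinarith
  have hlev := level_mono (L := L) (B := B) h
  obtain ⟨k, hk⟩ := Nat.exists_eq_add_of_le hlev
  have hk' : (level L B c' : ℝ) - level L B c = k := by
    rw [hk]
    push_cast
    ring
  rw [hk']
  have hdiff : cdf L B δ r c' - cdf L B δ r c =
      (cdf L B δ r c' - level L B c') - (cdf L B δ r c - level L B c) + k := by
    linarith
  rcases Nat.lt_or_ge k 1 with h0 | h1
  · have : k = 0 := by lia
    subst this
    simp only [Nat.cast_zero, mul_zero]
    exact ⟨abs_nonneg _, abs_nonneg _⟩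
  · have hkR : (1 : ℝ) ≤ k := by exact_mod_cast h1
    refine ⟨?_, ?_⟩
    · rcases Nat.lt_or_ge k 2 with h2 | h2
      · have hk1 : k = 1 := by lia
        subst hk1
        rcases Nat.even_or_odd (level L B c) with he | ho
        · have ho' : Odd (level L B c') := by
            rw [hk]
            exact he.add_one
          have e1 := cdf_eq_level_of_even (δ := δ) (r := r) he
          have e2 := abs_cdf_sub_level_ge hδ hev ho'
          rw [hdiff, e1]
          have : cdf L B δ r c' - (level L B c' : ℝ) - ((level L B c : ℝ) - level L B c) +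
              ((1 : ℕ) : ℝ) - 1 = cdf L B δ r c' - (level L B c' : ℝ) := by
            push_cast
            ring
          rw [this]
          simpa using e2
        · have he' : Even (level L B c') := by
            rw [hk]
            exact ho.add_one
          have e1 := cdf_eq_level_of_even (δ := δ) (r := r) he'
          have e2 := abs_cdf_sub_level_ge hδ hev ho
          rw [hdiff, e1]
          have : (level L B c' : ℝ) - (level L B c' : ℝ) - (cdf L B δ r c - level L B c) +
              ((1 : ℕ) : ℝ) - 1 = - (cdf L B δ r c - level L B c) := by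
            push_cast
            ring
          rw [this, abs_neg]
          simpa using e2
      · have hkR2 : (2 : ℝ) ≤ k := by exact_mod_cast h2
        refine le_trans ?_ (le_abs_self _)
        nlinarith
    · refine le_trans ?_ (le_abs_self _)
      nlinarith

end Pool.Agent.Binning
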