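import Mathlib

namespace Pool.Agent.Binning

open Finset

/-! ### Generic lemmas -/

/-- Push-forward of a product weight along a coordinatewise map. -/
lemma sum_prod_comp {α β : Type*} [Fintype α] [Fintype β] [DecidableEq β] {s : ℕ}
    (φ : α → β) (μ : α → ℝ) (F : (Fin s → β) → ℝ) :
    ∑ ω : Fin s → α, (∏ k, μ (ω k)) * F (fun k => φ (ω k)) =
      ∑ y : Fin s → β, (∏ k, ∑ a with φ a = y k, μ a) * F y := by
  classical
  have h1 : ∀ y : Fin s → β, (∏ k, ∑ a with φ a = y k, μ a) =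
      ∑ ω : Fin s → α with (fun k => φ (ω k)) = y, ∏ k, μ (ω k) := by
    intro y
    rw [Finset.prod_univ_sum]
    apply Finset.sum_congr _ (fun _ _ => rfl)
    ext ω
    simp [Fintype.mem_piFinset, funext_iff]
  simp_rw [h1, Finset.sum_mul]
  rw [← Finset.sum_fiberwise (s := univ) (g := fun ω : Fin s → α => (fun k => φ (ω k)))]
  apply Finset.sum_congr rfl
  intro y _
  apply Finset.sum_congr rfl
  intro ω hω
  rw [Finset.mem_filter] at hω
  rw [hω.2]

/-- Total variation is bounded by relative entropy, via the Bhattacharyya coefficient. -/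
lemma sq_sum_le_kl {Ω : Type*} [Fintype Ω] (P Q : Ω → ℝ) (hP : ∀ ω, 0 < P ω)
    (hQ : ∀ ω, 0 < Q ω) (hP1 : ∑ ω, P ω = 1) (hQ1 : ∑ ω, Q ω = 1) (T : Ω → ℝ)
    (hT0 : ∀ ω, 0 ≤ T ω) (hT1 : ∀ ω, T ω ≤ 1) (h0 : 0 ≤ ∑ ω, (P ω - Q ω) * T ω) :
    (∑ ω, (P ω - Q ω) * T ω) ^ 2 ≤ ∑ ω, P ω * Real.log (P ω / Q ω) := by
  classical
  set K := ∑ ω, P ω * Real.log (P ω / Q ω) with hK
  set BC := ∑ ω, Real.sqrt (P ω) * Real.sqrt (Q ω) with hBC
  have hsP : ∀ ω, Real.sqrt (P ω) ^ 2 = P ω := fun ω => Real.sq_sqrt (hP ω).le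
  have hsQ : ∀ ω, Real.sqrt (Q ω) ^ 2 = Q ω := fun ω => Real.sq_sqrt (hQ ω).le
  -- first: `∑ (P - Q) T ≤ (∑ |P - Q|) / 2`
  have h1 : ∑ ω, (P ω - Q ω) * T ω ≤ (∑ ω, |P ω - Q ω|) / 2 := by
    have e : ∑ ω, (P ω - Q ω) * T ω = ∑ ω, (P ω - Q ω) * (T ω - 1 / 2) := by
      have : ∑ ω, (P ω - Q ω) * (T ω - 1 / 2) =
          ∑ ω, (P ω - Q ω) * T ω - (∑ ω, P ω - ∑ ω, Q ω) * (1 / 2) := by
        rw [← Finset.sum_sub_distrib, Finset.sum_mul, ← Finset.sum_sub_distrib]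
        apply Finset.sum_congr rfl
        intro ω _
        ring
      rw [this, hP1, hQ1]
      ring
    rw [e, Finset.sum_div]
    apply Finset.sum_le_sum
    intro ω _
    have a1 : |T ω - 1 / 2| ≤ 1 / 2 := by
      rw [abs_le]
      constructor <;> linarith [hT0 ω, hT1 ω]
    calc (P ω - Q ω) * (T ω - 1 / 2) ≤ |(P ω - Q ω) * (T ω - 1 / 2)| := le_abs_self _
      _ = |P ω - Q ω| * |T ω - 1 / 2| := abs_mul _ _
      _ ≤ |P ω - Q ω| * (1 / 2) := mul_le_mul_of_nonneg_left a1 (abs_nonneg _)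
      _ = |P ω - Q ω| / 2 := by ring
  -- Cauchy–Schwarz
  have h2 : (∑ ω, |P ω - Q ω|) ^ 2 ≤ (2 - 2 * BC) * (2 + 2 * BC) := by
    have e1 : ∀ ω, |P ω - Q ω| =
        |Real.sqrt (P ω) - Real.sqrt (Q ω)| * (Real.sqrt (P ω) + Real.sqrt (Q ω)) := by
      intro ω
      have hh : 0 ≤ Real.sqrt (P ω) + Real.sqrt (Q ω) := by positivity
      rw [← abs_of_nonneg hh, ← abs_mul]
      congr 1
      have := hsP ω
      have := hsQ ω
      nlinarith
    simp_rw [e1]
    refine (Finset.sum_mul_sq_le_sq_mul_sq _ _ _).trans (le_of_eq ?_)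
    congr 1
    · have : ∀ ω, |Real.sqrt (P ω) - Real.sqrt (Q ω)| ^ 2 =
          P ω + Q ω - 2 * (Real.sqrt (P ω) * Real.sqrt (Q ω)) := by
        intro ω
        rw [sq_abs]
        have := hsP ω
        have := hsQ ω
        nlinarith
      simp_rw [this]
      rw [Finset.sum_sub_distrib, Finset.sum_add_distrib, hP1, hQ1, ← Finset.mul_sum]
      ring
    · have : ∀ ω, (Real.sqrt (P ω) + Real.sqrt (Q ω)) ^ 2 =
          P ω + Q ω + 2 * (Real.sqrt (P ω) * Real.sqrt (Q ω)) := by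
        intro ω
        have := hsP ω
        have := hsQ ω
        nlinarith
      simp_rw [this]
      rw [Finset.sum_add_distrib, Finset.sum_add_distrib, hP1, hQ1, ← Finset.mul_sum]
      ring
  -- `BC ≥ 1 - K / 2`
  have h3 : 1 - K / 2 ≤ BC := by
    have : ∀ ω, P ω - P ω * Real.log (P ω / Q ω) / 2 ≤ Real.sqrt (P ω) * Real.sqrt (Q ω) := by
      intro ω
      have hsp : 0 < Real.sqrt (P ω) := Real.sqrt_pos.mpr (hP ω)
      have hsq : 0 < Real.sqrt (Q ω) := Real.sqrt_pos.mpr (hQ ω)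
      have e2 : Real.log (P ω / Q ω) = - (2 * Real.log (Real.sqrt (Q ω) / Real.sqrt (P ω))) := by
        rw [Real.log_div (hP ω).ne' (hQ ω).ne', Real.log_div hsq.ne' hsp.ne',
          Real.log_sqrt (hQ ω).le, Real.log_sqrt (hP ω).le]
        ring
      have e3 : Real.log (Real.sqrt (Q ω) / Real.sqrt (P ω)) ≤
          Real.sqrt (Q ω) / Real.sqrt (P ω) - 1 :=
        Real.log_le_sub_one_of_pos (div_pos hsq hsp)
      have e4 : Real.sqrt (P ω) * Real.sqrt (Q ω) =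
          P ω * (Real.sqrt (Q ω) / Real.sqrt (P ω)) := by
        have := hsP ω
        rw [mul_div_assoc', eq_div_iff hsp.ne']
        rw [← hsP ω]
        rw [hsP ω]
        nlinarith
      rw [e4, e2]
      have := mul_le_mul_of_nonneg_left e3 (hP ω).le
      linarith
    have h := Finset.sum_le_sum (s := (univ : Finset Ω)) (fun ω _ => this ω)
    rw [Finset.sum_sub_distrib, ← Finset.sum_div, hP1] at h
    exact h
  have h4 : BC ≤ 1 := by
    have : ∀ ω, Real.sqrt (P ω) * Real.sqrt (Q ω) ≤ (P ω + Q ω) / 2 := by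
      intro ω
      have := hsP ω
      have := hsQ ω
      nlinarith [sq_nonneg (Real.sqrt (P ω) - Real.sqrt (Q ω))]
    have h := Finset.sum_le_sum (s := (univ : Finset Ω)) (fun ω _ => this ω)
    rw [← Finset.sum_div, Finset.sum_add_distrib, hP1, hQ1] at h
    linarith
  have h5 : 0 ≤ BC := Finset.sum_nonneg fun ω _ => by positivity
  calc (∑ ω, (P ω - Q ω) * T ω) ^ 2 ≤ ((∑ ω, |P ω - Q ω|) / 2) ^ 2 := by
        apply pow_le_pow_left₀ h0 h1
    _ = (∑ ω, |P ω - Q ω|) ^ 2 / 4 := by ring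
    _ ≤ (2 - 2 * BC) * (2 + 2 * BC) / 4 := by linarith
    _ = (1 - BC) * (1 + BC) := by ring
    _ ≤ K := by nlinarith

end Pool.Agent.Binning
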