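import Pool.Agent.Binning.Core

namespace Pool.Agent.Binning

open Finset

lemma wt_prod_zero {L B p : ℕ} (r : Fin B → Fin (2 * L + 1))
    (h : ¬ ∀ i, ((r i : ℕ)) % 2 = p) : ∏ i, wt L p (r i) = 0 := by
  push Not at h
  obtain ⟨i, hi⟩ := h
  apply Finset.prod_eq_zero (Finset.mem_univ i)
  unfold wt
  rw [if_neg hi]

/-- The main lower bound, with explicit parameters. -/
theorem lower_core (L B m n s : ℕ) (ε : ℝ) (hL : 1 ≤ L) (hB : 1 ≤ B) (hm : 2 * B ≤ m)
    (hn : m + (L - 1) * B ≤ n) (hε0 : 0 < ε) (hε : ε ≤ 1 / (20 * L))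
    (hT : Testable n m ε s) :
    (B : ℝ) ^ (1 - 1 / (2 * (L : ℝ))) / (100 * L * ε ^ 2) ≤ s := by
  classical
  have hB0 : 0 < B := hB
  have hB' : (0 : ℝ) < B := by positivity
  have hB1 : (1 : ℝ) ≤ B := by exact_mod_cast hB
  have hL' : (1 : ℝ) ≤ L := by exact_mod_cast hL
  have hLpos : (0 : ℝ) < L := by linarith
  have hexp : (L + 1) * B + (m - 2 * B) = m + (L - 1) * B := by
    obtain ⟨l, rfl⟩ : ∃ l, L = l + 1 := ⟨L - 1, by lia⟩
    have : (l + 1 + 1) * B = l * B + 2 * B := by ring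
    simp only [Nat.add_sub_cancel]
    lia
  have hn1 : (L + 1) * B + (m - 2 * B) ≤ n := by
    rw [hexp]
    exact hn
  have hn2 : (L + 1) * B ≤ n := by lia
  set δ : ℝ := 5 * ε with hδ
  have hδ0 : 0 < δ := by positivity
  have hLδ : L * δ ≤ 1 / 4 := by
    rw [le_div_iff₀ (by positivity)] at hε
    rw [hδ]
    linarith
  set A : ℝ := 1 - ((L : ℝ) - 1) * δ / 2 with hA
  have hA1 : 7 / 8 ≤ A := by
    rw [hA]
    nlinarith
  have hApos : 0 < A := by linarith
  by_contra hcon
  push Not at hcon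
  -- the tester
  obtain ⟨T, hT01, hTnull, hTalt⟩ := hT (refQ B m) (refQ_isDist hB0 hm)
  -- the scale
  set b : ℝ := (B : ℝ) ^ (1 / (2 * (L : ℝ))) with hb
  have hb1 : 1 ≤ b := Real.one_le_rpow hB1 (by positivity)
  have hbpos : 0 < b := by linarith
  have hbB : b ^ (2 * L) = B := by
    have e : (1 / (2 * (L : ℝ))) = (((2 * L : ℕ) : ℝ))⁻¹ := by
      push_cast
      rw [one_div]
    rw [hb, e]
    exact Real.rpow_inv_natCast_pow hB'.le (by lia)
  have hBb : (B : ℝ) ^ (1 - 1 / (2 * (L : ℝ))) = B / b := by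
    rw [Real.rpow_sub hB', Real.rpow_one]
  have hs : (s : ℝ) * (4 * b * L * δ ^ 2) ≤ B := by
    rw [hBb, lt_div_iff₀ (by positivity), lt_div_iff₀ hbpos] at hcon
    rw [hδ]
    have : (s : ℝ) * (4 * b * L * (5 * ε) ^ 2) = s * (100 * L * ε ^ 2) * b := by ring
    rw [this]
    exact hcon.le
  set η : ℝ := δ / (2 * A) with hη
  have hη0 : 0 < η := by rw [hη]; positivity
  have hnum := numerics L B s δ b hL hB0 hδ0 hLδ hb1 hbB hs A η hA hη
  have hLη : L * η ≤ 1 / 7 := by
    have : L * η = L * δ / (2 * A) := by rw [hη]; ring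
    rw [this, div_le_iff₀ (by positivity)]
    nlinarith
  have hLη0 : 0 ≤ L * η := by positivity
  have h0L := zero_ne_last hL
  -- values of `rho` and `hh`
  have hρpos : ∀ t : Fin (L + 1), 0 < rho L δ t := by
    intro t
    unfold rho
    by_cases h0 : t = 0
    · subst h0
      simp only [if_true, if_neg h0L]
      rw [← hA]
      linarith
    · by_cases h1 : t = Fin.last L
      · simp only [if_neg h0, if_pos h1]
        rw [← hA]
        linarith
      · simp only [if_neg h0, if_neg h1]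
        linarith
  have hρ1 : ∑ t, rho L δ t = 1 := by
    unfold rho
    rw [Finset.sum_add_distrib, ← Finset.mul_sum, Finset.sum_add_distrib]
    simp only [Finset.sum_const, Finset.card_univ, Fintype.card_fin, nsmul_eq_mul,
      Finset.sum_ite_eq', Finset.mem_univ, if_true]
    push_cast
    ring
  have hρh : ∑ t, rho L δ t * hh L δ t = 0 := by
    have e : ∀ t : Fin (L + 1), rho L δ t * hh L δ t =
        A / 2 * η * ((if t = Fin.last L then 1 else 0) - (if t = 0 then 1 else 0)) := by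
      intro t
      unfold rho hh
      rw [← hA, ← hη]
      by_cases h0 : t = 0
      · subst h0
        simp only [if_true, if_neg h0L]
        ring
      · by_cases h1 : t = Fin.last L
        · simp only [if_neg h0, if_pos h1]
          ring
        · simp only [if_neg h0, if_neg h1]
          ring
    simp_rw [e]
    rw [← Finset.mul_sum, Finset.sum_sub_distrib]
    simp
  have hσ : ∑ t, rho L δ t * hh L δ t ^ 2 = A * η ^ 2 := by
    have e : ∀ t : Fin (L + 1), rho L δ t * hh L δ t ^ 2 =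
        A / 2 * η ^ 2 * ((if t = Fin.last L then 1 else 0) + (if t = 0 then 1 else 0)) := by
      intro t
      unfold rho hh
      rw [← hA, ← hη]
      by_cases h0 : t = 0
      · subst h0
        simp only [if_true, if_neg h0L]
        ring
      · by_cases h1 : t = Fin.last L
        · simp only [if_neg h0, if_pos h1]
          ring
        · simp only [if_neg h0, if_neg h1]
          ring
    simp_rw [e]
    rw [← Finset.mul_sum, Finset.sum_add_distrib]
    simp
    ring
  have hx : ∀ r : Fin (2 * L + 1), |((r : ℕ) : ℝ) - L| ≤ L := by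
    intro r
    have h1 : (r : ℕ) ≤ 2 * L := Nat.lt_succ_iff.mp r.isLt
    have h2 : ((r : ℕ) : ℝ) ≤ 2 * L := by exact_mod_cast h1
    have h3 : (0 : ℝ) ≤ (r : ℕ) := by positivity
    rw [abs_le]
    constructor <;> linarith
  have hhabs : ∀ t : Fin (L + 1), |hh L δ t| ≤ η := by
    intro t
    unfold hh
    rw [← hA, ← hη]
    by_cases h0 : t = 0
    · subst h0
      simp only [if_true, if_neg h0L]
      rw [show η * (0 - 1) = -η by ring, abs_neg, abs_of_pos hη0]
    · by_cases h1 : t = Fin.last L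
      · simp only [if_neg h0, if_pos h1]
        rw [show η * (1 - 0) = η by ring, abs_of_pos hη0]
      · simp only [if_neg h0, if_neg h1]
        rw [show η * (0 - 0) = 0 by ring, abs_zero]
        exact hη0.le
  have hxh : ∀ (r : Fin (2 * L + 1)) (t : Fin (L + 1)),
      ((((r : ℕ) : ℝ) - L) * hh L δ t) ^ 2 ≤ (L * η) ^ 2 := by
    intro r t
    rw [← sq_abs, abs_mul]
    exact pow_le_pow_left₀ (by positivity)
      (mul_le_mul (hx r) (hhabs t) (abs_nonneg _) (by positivity)) 2
  have hz1 : (L * η) ^ 2 < 1 := by nlinarith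
  obtain ⟨hs1, hs0⟩ := wt_sum L hL
  -- the two mixtures
  have hnull : 2 / 3 ≤ ∑ ω : Fin s → Fin B × Fin (L + 1),
      mix (rho L δ) (fun (r : Fin (2 * L + 1)) t => 1 + ((r : ℝ) - L) * hh L δ t) (wt L 1) ω *
        T (fun k => emb hn2 (ω k)) := by
    rw [sum_mix_accept hL hB0 hn2 hApos]
    have h1 : ∀ r : Fin B → Fin (2 * L + 1), (∏ i, wt L 1 (r i)) * (2 / 3) ≤
        (∏ i, wt L 1 (r i)) * acceptProb (fam n L B δ (extR r)) T := by
      intro r
      by_cases hodd : ∀ i, ((r i : ℕ)) % 2 = 1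
      · apply mul_le_mul_of_nonneg_left _ (Finset.prod_nonneg fun i _ => wt_nonneg L 1 (r i))
        have hr : ∀ i < B, Odd (extR r i) ∧ extR r i ≤ 2 * L := by
          intro i hi
          unfold extR
          rw [dif_pos hi]
          exact ⟨Nat.odd_iff.mpr (hodd _), Nat.lt_succ_iff.mp (r ⟨i, hi⟩).isLt⟩
        apply hTnull
        · exact fam_isDist hL hB0 hδ0.le hLδ (fun i hi => (hr i hi).2) hn2
        · exact fam_null hL hB0 hm hn1 hr
      · rw [wt_prod_zero r hodd]
        simp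
    calc (2 / 3 : ℝ) = ∑ r : Fin B → Fin (2 * L + 1), (∏ i, wt L 1 (r i)) * (2 / 3) := by
          rw [← Finset.sum_mul, sum_prod_one _ hs1, one_mul]
      _ ≤ _ := Finset.sum_le_sum fun r _ => h1 r
  have halt : ∑ ω : Fin s → Fin B × Fin (L + 1),
      mix (rho L δ) (fun (r : Fin (2 * L + 1)) t => 1 + ((r : ℝ) - L) * hh L δ t) (wt L 0) ω *
        T (fun k => emb hn2 (ω k)) ≤ 1 / 3 := by
    rw [sum_mix_accept hL hB0 hn2 hApos]
    have h1 : ∀ r : Fin B → Fin (2 * L + 1),
        (∏ i, wt L 0 (r i)) * acceptProb (fam n L B δ (extR r)) T ≤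
        (∏ i, wt L 0 (r i)) * (1 / 3) := by
      intro r
      by_cases heven : ∀ i, ((r i : ℕ)) % 2 = 0
      · apply mul_le_mul_of_nonneg_left _ (Finset.prod_nonneg fun i _ => wt_nonneg L 0 (r i))
        have hr : ∀ i < B, Even (extR r i) ∧ extR r i ≤ 2 * L := by
          intro i hi
          unfold extR
          rw [dif_pos hi]
          exact ⟨Nat.even_iff.mpr (heven _), Nat.lt_succ_iff.mp (r ⟨i, hi⟩).isLt⟩
        apply hTalt
        · exact fam_isDist hL hB0 hδ0.le hLδ (fun i hi => (hr i hi).2) hn2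
        · intro f hf
          have := fam_alt (m := m) hL hB0 hδ0.le hLδ hn2 hr f hf
          rw [hδ] at this
          linarith
      · rw [wt_prod_zero r heven]
        simp
    calc _ ≤ ∑ r : Fin B → Fin (2 * L + 1), (∏ i, wt L 0 (r i)) * (1 / 3) :=
          Finset.sum_le_sum fun r _ => h1 r
      _ = 1 / 3 := by rw [← Finset.sum_mul, sum_prod_one _ hs0, one_mul]
  have hdiff : 1 / 3 ≤ ∑ ω : Fin s → Fin B × Fin (L + 1),
      (mix (rho L δ) (fun (r : Fin (2 * L + 1)) t => 1 + ((r : ℝ) - L) * hh L δ t) (wt L 1) ω -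
        mix (rho L δ) (fun (r : Fin (2 * L + 1)) t => 1 + ((r : ℝ) - L) * hh L δ t)
          (wt L 0) ω) * T (fun k => emb hn2 (ω k)) := by
    refine le_trans ?_ (le_of_eq (Finset.sum_congr rfl fun ω _ => (sub_mul _ _ _).symm))
    rw [Finset.sum_sub_distrib]
    linarith
  have hfinal := two_prior (R := Fin (2 * L + 1)) (rho L δ) (hh L δ)
    (fun r => ((r : ℕ) : ℝ) - L) (wt L 1) (wt L 0) Fin.revPerm ((L * η) ^ 2) (A * η ^ 2) L
    (24 * b) (2 * L) hB0 hρpos hρ1 hρh hσ (sq_nonneg _) hz1 hxh hLpos.le hx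
    (by linarith) (wt_nonneg L 1) (wt_nonneg L 0) hs1 hs0
    (fun r => wt_rev L 0 r) (fun r => xr_rev L r) (fun k hk => wt_moment L k hk)
    (fun ω => T (fun k => emb hn2 (ω k))) (fun ω => (hT01 _).1) (fun ω => (hT01 _).2) hdiff
  exact absurd hnum (not_lt.mpr hfinal)

end Pool.Agent.Binning
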