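import Pool.Agent.Binning.Info

set_option linter.unusedSectionVars false

namespace Pool.Agent.Binning

open Finset

variable {R τ : Type*} [Fintype R] [Fintype τ] [DecidableEq τ] {B s : ℕ}

/-- Likelihood ratio of one sample as seen from one block (`none`: not in the block). -/
def lift (g : R → τ → ℝ) (r : R) : Option τ → ℝ
  | none => 1
  | some t => g r t

/-- The observation of a block. -/
def proj (l : Fin B) (z : Fin B × τ) : Option τ := if z.1 = l then some z.2 else none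

/-- The law of one sample with block parameters `r`. -/
noncomputable def atom (ρ : τ → ℝ) (g : R → τ → ℝ) (r : Fin B → R) (z : Fin B × τ) : ℝ :=
  ρ z.2 / B * g (r z.1) z.2

/-- The mixture over independent block parameters. -/
noncomputable def mix (ρ : τ → ℝ) (g : R → τ → ℝ) (π : R → ℝ) (ω : Fin s → Fin B × τ) : ℝ :=
  ∑ r : Fin B → R, (∏ i, π (r i)) * ∏ k, atom ρ g r (ω k)

/-- The likelihood ratio of the mixture, as seen from one block. -/
noncomputable def Lam (g : R → τ → ℝ) (π : R → ℝ) (y : Fin s → Option τ) : ℝ :=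
  ∑ r, π r * ∏ k, lift g r (y k)

/-- The law of the observation of a block under the reference measure. -/
noncomputable def nu (B : ℕ) (ρ : τ → ℝ) : Option τ → ℝ
  | none => ((B : ℝ) - 1) / B
  | some t => ρ t / B

omit [Fintype τ] in
lemma mix_eq (ρ : τ → ℝ) (g : R → τ → ℝ) (π : R → ℝ) (ω : Fin s → Fin B × τ) :
    mix ρ g π ω = (∏ k, ρ (ω k).2 / B) * ∏ l, Lam g π (fun k => proj l (ω k)) := by
  classical
  have h1 : ∀ r : Fin B → R, ∏ k, atom ρ g r (ω k) =
      (∏ k, ρ (ω k).2 / B) * ∏ l, ∏ k, lift g (r l) (proj l (ω k)) := by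
    intro r
    rw [Finset.prod_comm, ← Finset.prod_mul_distrib]
    apply Finset.prod_congr rfl
    intro k _
    have : ∏ l, lift g (r l) (proj l (ω k)) = g (r (ω k).1) (ω k).2 := by
      rw [Finset.prod_eq_single (ω k).1]
      · simp [proj, lift]
      · intro l _ hl
        simp [proj, lift, hl.symm]
      · simp
    rw [this, atom]
  unfold mix Lam
  simp_rw [h1]
  rw [Finset.prod_univ_sum, Fintype.piFinset_univ, Finset.mul_sum]
  apply Finset.sum_congr rfl
  intro r _
  rw [Finset.prod_mul_distrib]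
  ring

lemma sum_prod_marginal (π : R → ℝ) (hπ : ∑ r, π r = 1) (l : Fin B) (Φ : R → ℝ) :
    ∑ r : Fin B → R, (∏ i, π (r i)) * Φ (r l) = ∑ x, π x * Φ x := by
  classical
  have h1 : ∀ r : Fin B → R, (∏ i, π (r i)) * Φ (r l) =
      ∏ i, (π (r i) * (if i = l then Φ (r i) else 1)) := by
    intro r
    rw [Finset.prod_mul_distrib]
    congr 1
    simp
  simp_rw [h1]
  have h2 := Finset.prod_univ_sum (fun _ : Fin B => (univ : Finset R))
    (fun i x => π x * (if i = l then Φ x else 1))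
  rw [Fintype.piFinset_univ] at h2
  rw [← h2, Finset.prod_eq_single l]
  · simp
  · intro i _ hi
    simp [hi, hπ]
  · simp

lemma sum_atom_proj (ρ : τ → ℝ) (g : R → τ → ℝ) (hg : ∀ r, ∑ t, ρ t * g r t = 1)
    (r : Fin B → R) (l : Fin B) (z : Option τ) :
    ∑ a with proj l a = z, atom ρ g r a = nu B ρ z * lift g (r l) z := by
  classical
  have hB : (B : ℝ) ≠ 0 := by
    have := l.pos
    positivity
  rw [Finset.sum_filter, Fintype.sum_prod_type]
  cases z with
  | none =>
    have : ∀ i : Fin B, ∑ t, (if proj l (i, t) = none then atom ρ g r (i, t) else 0) =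
        if i = l then 0 else 1 / (B : ℝ) := by
      intro i
      by_cases h : i = l
      · simp [proj, h]
      · simp only [proj, h, if_false, if_true]
        have e : ∑ t, atom ρ g r (i, t) = (∑ t, ρ t * g (r i) t) / B := by
          rw [Finset.sum_div]
          apply Finset.sum_congr rfl
          intro t _
          simp only [atom]
          ring
        rw [e, hg]
    simp_rw [this]
    have e2 : ∑ i : Fin B, (if i = l then (0 : ℝ) else 1 / B) =
        ∑ i : Fin B, (1 / (B : ℝ) - (if i = l then 1 / (B : ℝ) else 0)) := by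
      apply Finset.sum_congr rfl
      intro i _
      split_ifs <;> ring
    rw [e2, Finset.sum_sub_distrib]
    simp [nu, lift]
    field_simp
  | some t₀ =>
    rw [Finset.sum_eq_single l, Finset.sum_eq_single t₀]
    · simp [proj, nu, lift, atom]
    · intro t _ ht
      simp [proj, ht]
    · simp
    · intro i _ hi
      apply Finset.sum_eq_zero
      intro t _
      simp [proj, hi]
    · simp

lemma sum_mix_proj (ρ : τ → ℝ) (g : R → τ → ℝ) (hg : ∀ r, ∑ t, ρ t * g r t = 1)
    (π : R → ℝ) (hπ : ∑ r, π r = 1) (l : Fin B) (F : (Fin s → Option τ) → ℝ) :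
    ∑ ω : Fin s → Fin B × τ, mix ρ g π ω * F (fun k => proj l (ω k)) =
      ∑ y : Fin s → Option τ, (∏ k, nu B ρ (y k)) * Lam g π y * F y := by
  classical
  unfold mix
  simp_rw [Finset.sum_mul]
  rw [Finset.sum_comm]
  have h1 : ∀ r : Fin B → R, ∑ ω : Fin s → Fin B × τ,
      (∏ i, π (r i)) * (∏ k, atom ρ g r (ω k)) * F (fun k => proj l (ω k)) =
      (∏ i, π (r i)) * ∑ y : Fin s → Option τ, (∏ k, (nu B ρ (y k) * lift g (r l) (y k))) * F y := by
    intro r
    simp_rw [mul_assoc]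
    rw [← Finset.mul_sum, sum_prod_comp (proj l) (atom ρ g r) F]
    simp_rw [sum_atom_proj ρ g hg r l]
  simp_rw [h1]
  have h2 := sum_prod_marginal π hπ l
    (fun x => ∑ y : Fin s → Option τ, (∏ k, (nu B ρ (y k) * lift g x (y k))) * F y)
  rw [h2]
  simp_rw [Finset.mul_sum]
  rw [Finset.sum_comm]
  apply Finset.sum_congr rfl
  intro y _
  unfold Lam
  rw [Finset.mul_sum, Finset.sum_mul]
  apply Finset.sum_congr rfl
  intro x _
  rw [Finset.prod_mul_distrib]
  ring

lemma sum_mix (ρ : τ → ℝ) (g : R → τ → ℝ) (hg : ∀ r, ∑ t, ρ t * g r t = 1)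
    (π : R → ℝ) (hπ : ∑ r, π r = 1) (hB : 0 < B) :
    ∑ ω : Fin s → Fin B × τ, mix ρ g π ω = 1 := by
  classical
  have hB' : (B : ℝ) ≠ 0 := by positivity
  unfold mix
  rw [Finset.sum_comm]
  have h1 : ∀ r : Fin B → R, ∑ ω : Fin s → Fin B × τ, (∏ i, π (r i)) * (∏ k, atom ρ g r (ω k)) =
      ∏ i, π (r i) := by
    intro r
    rw [← Finset.mul_sum]
    have : ∑ ω : Fin s → Fin B × τ, (∏ k, atom ρ g r (ω k)) = 1 := by
      rw [← Fintype.sum_pow, Fintype.sum_prod_type]
      have e : ∀ i : Fin B, ∑ t, atom ρ g r (i, t) = 1 / (B : ℝ) := by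
        intro i
        have : ∑ t, atom ρ g r (i, t) = (∑ t, ρ t * g (r i) t) / B := by
          rw [Finset.sum_div]
          apply Finset.sum_congr rfl
          intro t _
          simp only [atom]
          ring
        rw [this, hg]
      simp_rw [e]
      simp [hB']
    rw [this, mul_one]
  simp_rw [h1]
  have h2 := Finset.prod_univ_sum (fun _ : Fin B => (univ : Finset R)) (fun _ x => π x)
  rw [Fintype.piFinset_univ] at h2
  rw [← h2]
  simp [hπ]

lemma sum_nu_Lam (ρ : τ → ℝ) (g : R → τ → ℝ) (hg : ∀ r, ∑ t, ρ t * g r t = 1)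
    (π : R → ℝ) (hπ : ∑ r, π r = 1) (hB : 0 < B) :
    ∑ y : Fin s → Option τ, (∏ k, nu B ρ (y k)) * Lam g π y = 1 := by
  have h := sum_mix_proj (s := s) ρ g hg π hπ (⟨0, hB⟩ : Fin B) (fun _ => 1)
  simp only [mul_one] at h
  rw [← h, sum_mix ρ g hg π hπ hB]

/-- The relative entropy of two mixtures is at most `B` times a one-block chi-square quantity. -/
lemma kl_mix_le (ρ : τ → ℝ) (g : R → τ → ℝ) (hρ : ∀ t, 0 < ρ t)
    (hg : ∀ r, ∑ t, ρ t * g r t = 1)
    (π₀ π₁ : R → ℝ) (hπ₀ : ∑ r, π₀ r = 1) (hπ₁ : ∑ r, π₁ r = 1)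
    (hΛ₀ : ∀ y : Fin s → Option τ, 0 < Lam g π₀ y)
    (hΛ₁ : ∀ y : Fin s → Option τ, 0 < Lam g π₁ y) (hB : 0 < B) :
    ∑ ω : Fin s → Fin B × τ, mix ρ g π₀ ω * Real.log (mix ρ g π₀ ω / mix ρ g π₁ ω) ≤
      B * ∑ y : Fin s → Option τ, (∏ k, nu B ρ (y k)) *
        ((Lam g π₀ y - Lam g π₁ y) ^ 2 / Lam g π₁ y) := by
  classical
  have hB' : (0 : ℝ) < B := by positivity
  have h1 : ∀ ω : Fin s → Fin B × τ, Real.log (mix ρ g π₀ ω / mix ρ g π₁ ω) =
      ∑ l, (Real.log (Lam g π₀ (fun k => proj l (ω k))) -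
        Real.log (Lam g π₁ (fun k => proj l (ω k)))) := by
    intro ω
    have hc : (∏ k, ρ (ω k).2 / (B : ℝ)) ≠ 0 :=
      Finset.prod_ne_zero_iff.mpr fun k _ => (div_pos (hρ _) hB').ne'
    rw [mix_eq, mix_eq, mul_div_mul_left _ _ hc, Real.log_div, Real.log_prod, Real.log_prod,
      Finset.sum_sub_distrib]
    · intro l _
      exact (hΛ₁ _).ne'
    · intro l _
      exact (hΛ₀ _).ne'
    · exact Finset.prod_ne_zero_iff.mpr fun k _ => (hΛ₀ _).ne'
    · exact Finset.prod_ne_zero_iff.mpr fun k _ => (hΛ₁ _).ne'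
  simp_rw [h1, Finset.mul_sum]
  rw [Finset.sum_comm]
  have h2 : ∀ l : Fin B, ∑ ω : Fin s → Fin B × τ, mix ρ g π₀ ω *
      (Real.log (Lam g π₀ (fun k => proj l (ω k))) -
        Real.log (Lam g π₁ (fun k => proj l (ω k)))) ≤
      ∑ y : Fin s → Option τ, (∏ k, nu B ρ (y k)) *
        ((Lam g π₀ y - Lam g π₁ y) ^ 2 / Lam g π₁ y) := by
    intro l
    rw [sum_mix_proj ρ g hg π₀ hπ₀ l (fun y => Real.log (Lam g π₀ y) - Real.log (Lam g π₁ y))]
    have e : ∑ y : Fin s → Option τ, (∏ k, nu B ρ (y k)) *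
        ((Lam g π₀ y - Lam g π₁ y) ^ 2 / Lam g π₁ y) =
        ∑ y : Fin s → Option τ, ((∏ k, nu B ρ (y k)) *
          ((Lam g π₀ y - Lam g π₁ y) ^ 2 / Lam g π₁ y) +
          ((∏ k, nu B ρ (y k)) * Lam g π₀ y - (∏ k, nu B ρ (y k)) * Lam g π₁ y)) := by
      rw [Finset.sum_add_distrib, Finset.sum_sub_distrib, sum_nu_Lam ρ g hg π₀ hπ₀ hB,
        sum_nu_Lam ρ g hg π₁ hπ₁ hB]
      ring
    rw [e]
    apply Finset.sum_le_sum
    intro y _
    have hν : 0 ≤ ∏ k, nu B ρ (y k) := by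
      apply Finset.prod_nonneg
      intro k _
      cases y k with
      | none =>
        simp only [nu]
        apply div_nonneg _ hB'.le
        have : (1 : ℝ) ≤ B := by exact_mod_cast hB
        linarith
      | some t => exact (div_pos (hρ t) hB').le
    have e1 := hΛ₀ y
    have e2 := hΛ₁ y
    have e3 : Real.log (Lam g π₀ y) - Real.log (Lam g π₁ y) ≤ Lam g π₀ y / Lam g π₁ y - 1 := by
      rw [← Real.log_div e1.ne' e2.ne']
      exact Real.log_le_sub_one_of_pos (div_pos e1 e2)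
    have e4 : Lam g π₀ y * (Real.log (Lam g π₀ y) - Real.log (Lam g π₁ y)) ≤
        (Lam g π₀ y - Lam g π₁ y) ^ 2 / Lam g π₁ y + (Lam g π₀ y - Lam g π₁ y) := by
      refine (mul_le_mul_of_nonneg_left e3 e1.le).trans (le_of_eq ?_)
      field_simp
      ring
    have := mul_le_mul_of_nonneg_left e4 hν
    calc _ = (∏ k, nu B ρ (y k)) *
          (Lam g π₀ y * (Real.log (Lam g π₀ y) - Real.log (Lam g π₁ y))) := by ring
      _ ≤ _ := this
      _ = _ := by ring
  calc _ ≤ ∑ l : Fin B, ∑ y : Fin s → Option τ, (∏ k, nu B ρ (y k)) *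
        ((Lam g π₀ y - Lam g π₁ y) ^ 2 / Lam g π₁ y) := Finset.sum_le_sum fun l _ => h2 l
    _ = _ := by
      rw [Finset.sum_const, Finset.card_univ, Fintype.card_fin, nsmul_eq_mul, Finset.mul_sum]

/-- Evaluation of the one-block quadratic form. -/
lemma sum_sq_eq (w : Option τ → ℝ) (g : R → τ → ℝ) (d : R → ℝ) :
    ∑ y : Fin s → Option τ, (∏ k, w (y k)) * (∑ r, d r * ∏ k, lift g r (y k)) ^ 2 =
      ∑ r, ∑ r', d r * d r' * (∑ z, w z * (lift g r z * lift g r' z)) ^ s := by
  classical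
  have h1 : ∀ y : Fin s → Option τ, (∏ k, w (y k)) * (∑ r, d r * ∏ k, lift g r (y k)) ^ 2 =
      ∑ r, ∑ r', d r * d r' * ∏ k, (w (y k) * (lift g r (y k) * lift g r' (y k))) := by
    intro y
    rw [sq, Finset.sum_mul_sum, Finset.mul_sum]
    apply Finset.sum_congr rfl
    intro r _
    rw [Finset.mul_sum]
    apply Finset.sum_congr rfl
    intro r' _
    rw [Finset.prod_mul_distrib, Finset.prod_mul_distrib]
    ring
  simp_rw [h1]
  rw [Finset.sum_comm]
  apply Finset.sum_congr rfl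
  intro r _
  rw [Finset.sum_comm]
  apply Finset.sum_congr rfl
  intro r' _
  rw [← Finset.mul_sum, Fintype.sum_pow]

/-- The bound for the quadratic form from matching moments. -/
lemma quad_le (x d : R → ℝ) (u v X lam : ℝ) (K : ℕ) (hu : 0 ≤ u) (hv : 0 ≤ v) (hX : 0 ≤ X)
    (hlam : 1 ≤ lam) (hx : ∀ r, |x r| ≤ X) (hd : ∑ r, |d r| ≤ 2)
    (hmom : ∀ k < K, ∑ r, d r * x r ^ k = 0) :
    ∑ r, ∑ r', d r * d r' * (u + v * (x r * x r')) ^ s ≤
      4 * (lam ^ K)⁻¹ * (u + lam * (v * X ^ 2)) ^ s := by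
  classical
  have h1 : ∑ r, ∑ r', d r * d r' * (u + v * (x r * x r')) ^ s =
      ∑ k ∈ range (s + 1), (s.choose k : ℝ) * u ^ (s - k) * v ^ k *
        (∑ r, d r * x r ^ k) ^ 2 := by
    have e : ∀ r r', d r * d r' * (u + v * (x r * x r')) ^ s =
        ∑ k ∈ range (s + 1), (s.choose k : ℝ) * u ^ (s - k) * v ^ k *
          ((d r * x r ^ k) * (d r' * x r' ^ k)) := by
      intro r r'
      rw [add_comm u, add_pow, Finset.mul_sum]
      apply Finset.sum_congr rfl
      intro k _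
      rw [mul_pow, mul_pow]
      ring
    simp_rw [e]
    calc _ = ∑ r, ∑ k ∈ range (s + 1), ∑ r', (s.choose k : ℝ) * u ^ (s - k) * v ^ k *
          ((d r * x r ^ k) * (d r' * x r' ^ k)) := by
          apply Finset.sum_congr rfl
          intro r _
          rw [Finset.sum_comm]
      _ = ∑ k ∈ range (s + 1), ∑ r, ∑ r', (s.choose k : ℝ) * u ^ (s - k) * v ^ k *
          ((d r * x r ^ k) * (d r' * x r' ^ k)) := by
          rw [Finset.sum_comm]
      _ = _ := by
          apply Finset.sum_congr rfl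
          intro k _
          rw [sq, Finset.sum_mul_sum, Finset.mul_sum]
          apply Finset.sum_congr rfl
          intro r _
          rw [Finset.mul_sum]
  rw [h1, add_comm u, add_pow, Finset.mul_sum]
  apply Finset.sum_le_sum
  intro k _
  have hM : (∑ r, d r * x r ^ k) ^ 2 ≤ 4 * (lam ^ K)⁻¹ * lam ^ k * X ^ (2 * k) := by
    rcases lt_or_ge k K with hk | hk
    · rw [hmom k hk]
      have : 0 < lam := by linarith
      have h0 : 0 ≤ 4 * (lam ^ K)⁻¹ * lam ^ k * X ^ (2 * k) := by positivity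
      simpa using h0
    · have a1 : |∑ r, d r * x r ^ k| ≤ 2 * X ^ k := by
        calc |∑ r, d r * x r ^ k| ≤ ∑ r, |d r * x r ^ k| := Finset.abs_sum_le_sum_abs _ _
          _ ≤ ∑ r, |d r| * X ^ k := by
              apply Finset.sum_le_sum
              intro r _
              rw [abs_mul, abs_pow]
              exact mul_le_mul_of_nonneg_left (pow_le_pow_left₀ (abs_nonneg _) (hx r) k)
                (abs_nonneg _)
          _ = (∑ r, |d r|) * X ^ k := by rw [Finset.sum_mul]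
          _ ≤ 2 * X ^ k := mul_le_mul_of_nonneg_right hd (by positivity)
      have a2 : (∑ r, d r * x r ^ k) ^ 2 ≤ 4 * X ^ (2 * k) := by
        rw [← sq_abs]
        calc |∑ r, d r * x r ^ k| ^ 2 ≤ (2 * X ^ k) ^ 2 :=
              pow_le_pow_left₀ (abs_nonneg _) a1 2
          _ = 4 * X ^ (2 * k) := by ring
      have a3 : 1 ≤ (lam ^ K)⁻¹ * lam ^ k := by
        have hp : 0 < lam ^ K := by positivity
        rw [inv_mul_eq_div, le_div_iff₀ hp, one_mul]
        exact pow_le_pow_right₀ hlam hk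
      calc _ ≤ 4 * X ^ (2 * k) := a2
        _ ≤ (4 * X ^ (2 * k)) * ((lam ^ K)⁻¹ * lam ^ k) := le_mul_of_one_le_right (by positivity) a3
        _ = _ := by ring
  calc (s.choose k : ℝ) * u ^ (s - k) * v ^ k * (∑ r, d r * x r ^ k) ^ 2 ≤
      (s.choose k : ℝ) * u ^ (s - k) * v ^ k *
        (4 * (lam ^ K)⁻¹ * lam ^ k * X ^ (2 * k)) :=
        mul_le_mul_of_nonneg_left hM (by positivity)
    _ = _ := by
      rw [mul_pow, mul_pow, ← pow_mul]
      ring

end Pool.Agent.Binning
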